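import Pool.Agent.Lib.MP_c86c76_al.Lo.St

/-!
Compressions of affine actions and one step of the local lemma.
-/

set_option autoImplicit false

namespace Pool.Agent.ML

open Pool.Agent.MT Pool.Agent.Lib.MP_c8f1ce_al.HN

section

variable {G : Type} [Group G] {H : Type} [NormedAddCommGroup H] [InnerProductSpace ℂ H]

theorem resOrth (π : G →* (H ≃ₗᵢ[ℂ] H)) (P : Submodule ℂ H) (h : ∀ g, ∀ v ∈ P, π g v ∈ P)
    (g : G) (v : H) (hv : v ∈ Pᗮ) : π g v ∈ Pᗮ := fun w m => by
  rw [← rep_apply_inv π g w, (π g).inner_map_map]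
  exact hv _ (h _ w m)

theorem resComm (π : G →* (H ≃ₗᵢ[ℂ] H)) (P : Submodule ℂ H) [P.HasOrthogonalProjection]
    (h : ∀ g, ∀ v ∈ P, π g v ∈ P) (g : G) (v : H) :
    P.starProjection (π g v) = π g (P.starProjection v) := by
  refine Submodule.eq_starProjection_of_mem_orthogonal
    (h g _ (Submodule.starProjection_apply_mem _ _)) ?_
  rw [← map_sub]
  exact resOrth π P h g _ (Submodule.sub_starProjection_mem_orthogonal v)

theorem resFix (π : G →* (H ≃ₗᵢ[ℂ] H)) {N : Subgroup G} (hN : N.Normal) (g : G) (v : H)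
    (hv : v ∈ fix π N) : π g v ∈ fix π N := fun n m => by
  have := hv _ (hN.conj_mem' n m g)
  rw [rep_mul, rep_mul] at this
  rw [← rep_apply_inv π g (π n (π g v)), this]

theorem resClos (π : G →* (H ≃ₗᵢ[ℂ] H)) {s : Set G} {v : H} (hv : ∀ g ∈ s, π g v = v) {g : G}
    (hg : g ∈ Subgroup.closure s) : π g v = v := by
  induction hg using Subgroup.closure_induction with
  | mem x hx => exact hv x hx
  | one => exact rep_one π v
  | mul x y _ _ hx hy => rw [rep_mul, hy, hx]
  | inv x _ hx => rw [← hx, rep_inv_apply, hx]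

theorem resLoc [CompleteSpace H] (β : G →* (H ≃ᵃⁱ[ℂ] H))
    (h : ∀ (S : Finset G) (ε : ℝ), 0 < ε → ∃ x, ∀ s ∈ S, ‖β s x - x‖ < ε) : LocA β := by
  classical
  intro S U hU ε hε
  choose! T c c0 hc using hU
  have s0 : 0 ≤ ∑ u ∈ U, c u := Finset.sum_nonneg c0
  set δ := min 1 (ε / (∑ u ∈ U, c u + 1)) with hδ
  have d0 : 0 < δ := lt_min one_pos (by positivity)
  have d1 : δ ≤ 1 := min_le_left _ _
  have d2 : δ * (∑ u ∈ U, c u + 1) ≤ ε := (le_div_iff₀ (by positivity)).1 (min_le_right _ _)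
  obtain ⟨y, hy⟩ := h (S ∪ U.biUnion T) δ d0
  refine ⟨y, fun s m => (hy s (Finset.mem_union_left _ m)).le.trans (by nlinarith),
    fun u m n0 => (hc u m H β y δ d0.le (fun s m' => (hy s (Finset.mem_union_right _
      (Finset.mem_biUnion.2 ⟨u, m, m'⟩))).le) n0).trans ?_⟩
  have := Finset.single_le_sum c0 m
  have := c0 u m
  have : c u * δ ^ 2 ≤ c u * δ := mul_le_mul_of_nonneg_left (by nlinarith) this
  nlinarith

end

theorem resSt : ResSt := fun G _ H _ _ _ α P _ h => by
  refine ⟨aff (res (lin α) P h) (fun g => P.orthogonalProjectionOnto (α g 0)) fun g g' =>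
    Subtype.ext ?_, fun g x => ?_, fun _ _ => rfl⟩
  · change P.starProjection (α (g * g') 0) =
      lin α g (P.starProjection (α g' 0)) + P.starProjection (α g 0)
    rw [act_mul, act_eq, map_add, resComm _ P h]
  · change lin α g x + P.starProjection (α g 0) = _
    rw [act_eq α g x, map_add, Submodule.starProjection_eq_self_iff.2 (h g _ x.2)]

theorem stepSt (hB : BasSt) (hM : MinSt) (hR : ResSt) : StepSt := by
  intro K G0 G _ _ _ k j P0 N C hP hN hW hk hC hle hl H _ _ _ α S U hU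
  classical
  obtain ⟨V, h1, h2, h3⟩ := hM K H (α.comp k) S U fun u m =>
    ⟨0, ((hB K).2.2.2.2.2.2.2 H (α.comp k) u (hU u m)).1 0⟩
  refine h3 fun v hv => ?_
  choose x0 hx using hk
  have iP := resOrth _ _ (resFix (lin (α.comp j)) hP)
  have e0 : ∀ x, (α.comp k) x = (α.comp j) (x0 x) := fun x => congrArg α (hx x).symm
  have iK : ∀ g, ∀ w ∈ (fix (lin (α.comp j)) P0)ᗮ,
      lin (α.comp k) g w ∈ (fix (lin (α.comp j)) P0)ᗮ := fun g w m => by
    have : lin (α.comp k) g = lin (α.comp j) (x0 g) :=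
      congrArg AffineIsometryEquiv.linearIsometryEquiv (e0 g)
    rw [this]
    exact iP _ w m
  obtain ⟨β0, a1, a2⟩ := hR G0 H (α.comp j) _ iP
  obtain ⟨β, b1, -⟩ := hR K H (α.comp k) _ iK
  have e1 : ∀ x y, β x y = β0 (x0 x) y := fun x y => Subtype.ext (by rw [a1, b1, e0])
  have f0 := hW _ β0 fun w hw => Subtype.ext (inner_self_eq_zero.1 (w.2 w fun p m =>
    (a2 p w).symm.trans (congrArg Subtype.val (hw p m))))
  have f1 : LocA β := resLoc β fun T ε hε => (f0 (T.image x0) ε hε).imp fun y hy s m => by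
    rw [e1]
    exact hy _ (Finset.mem_image_of_mem _ m)
  have f2 := h2 _ β iK b1 (f1 S U hU) v hv
  rw [Submodule.orthogonal_orthogonal] at f2
  have f3 : v ∈ fix (lin α) N := fun n m => resClos (lin α) (by
    rintro g (c | ⟨p, c, rfl⟩)
    · exact h1 (α g) (fun x => (hC g c x).map α) v hv
    · exact f2 p c) (hle m)
  have := (isClosed_fix (lin α) N).completeSpace_coe
  obtain ⟨γ, c1, c2⟩ := hR G H α _ (resFix (lin α) hN)
  exact inner_self_eq_zero.1 (h2 _ (γ.comp k) (fun g => resFix (lin α) hN (k g))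
    (fun g => c1 (k g)) (hl _ γ (fun n m w => Subtype.ext ((c2 n w).trans (w.2 n m))) S U hU)
    v hv v f3)

end Pool.Agent.ML
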