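import Pool.Agent.Lib.MP_c86c76_al.Lo.St

/-!
Closure properties of tame elements.
-/

set_option autoImplicit false

namespace Pool.Agent.ML

open Pool.Agent.MT

theorem bas_zeta (N : ℕ) : ∑ n ∈ Finset.range N, 1 / ((n : ℝ) + 1) ^ 2 ≤ 2 := by
  have h : ∀ N : ℕ, ∑ n ∈ Finset.range N, 1 / ((n : ℝ) + 1) ^ 2 ≤ 2 - 2 / ((N : ℝ) + 1) := by
    intro N
    induction N with
    | zero => simp
    | succ N ih =>
      rw [Finset.sum_range_succ, Nat.cast_succ]
      have h0 : (0 : ℝ) ≤ N := Nat.cast_nonneg N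
      have h1 : 1 / ((N : ℝ) + 1) ^ 2 ≤ 2 / ((N : ℝ) + 1) - 2 / ((N : ℝ) + 1 + 1) := by
        rw [div_sub_div _ _ (by positivity) (by positivity),
          div_le_div_iff₀ (by positivity) (by positivity)]
        nlinarith [mul_nonneg h0 h0, mul_nonneg h0 (mul_nonneg h0 h0)]
      linarith
  have h2 : (0 : ℝ) ≤ 2 / ((N : ℝ) + 1) := by positivity
  linarith [h N]

theorem bas_block (a : ℕ → ℝ) {k : ℕ} (hk : 0 < k) (N : ℕ) :
    ∑ m ∈ Finset.range (k * N), a (m / k) = k * ∑ q ∈ Finset.range N, a q := by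
  induction N with
  | zero => simp
  | succ N ih =>
    rw [Nat.mul_succ, Finset.sum_range_add, ih, Finset.sum_range_succ, mul_add]
    congr 1
    rw [Finset.sum_congr rfl (g := fun _ => a N) fun x hx => by
      rw [Nat.mul_add_div hk, Nat.div_eq_of_lt (Finset.mem_range.1 hx), add_zero]]
    simp

theorem bas_block_le (a : ℕ → ℝ) (ha : ∀ q, 0 ≤ a q) {k : ℕ} (hk : 0 < k) (N : ℕ) :
    ∑ n ∈ Finset.range N, a ((n + 1) / k) ≤
      k * (∑ q ∈ Finset.range N, a (q + 1) + a 0) := by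
  rw [← Finset.sum_range_succ' a N, ← bas_block a hk]
  have h1 : ∑ n ∈ Finset.range N, a ((n + 1) / k) ≤ ∑ m ∈ Finset.range (N + 1), a (m / k) := by
    rw [Finset.sum_range_succ' (fun m => a (m / k)) N]
    exact le_add_of_nonneg_right (ha _)
  refine h1.trans (Finset.sum_le_sum_of_subset_of_nonneg ?_ fun _ _ _ => ha _)
  exact Finset.range_mono (Nat.le_mul_of_pos_left _ hk)

section Act

variable {G : Type} [Group G] {H : Type} [NormedAddCommGroup H] [InnerProductSpace ℂ H]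

theorem bas_kap (α : G →* (H ≃ᵃⁱ[ℂ] H)) (u : G) (y : H) (K : ℝ) : Kap (α u) y K ↔
    ∀ n0 : ℕ, ∑ n ∈ Finset.range n0, ‖α (u ^ (n + 1)) y - y‖ ^ 2 / ((n : ℝ) + 1) ^ 2 ≤ K := by
  simp only [Kap, map_pow]

theorem bas_disp_pow (α : G →* (H ≃ᵃⁱ[ℂ] H)) (u : G) (y : H) (r : ℕ) :
    ‖α (u ^ r) y - y‖ ≤ r * ‖α u y - y‖ := by
  induction r with
  | zero => simp
  | succ r ih =>
    rw [pow_succ, Nat.cast_succ]
    linarith [disp_mul α y (u ^ r) u]

theorem bas_trans (α : G →* (H ≃ᵃⁱ[ℂ] H)) (u : G) (h : ∀ v, lin α u v = v) (y : H) (n : ℕ) :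
    α (u ^ n) y - y = (n : ℂ) • (α u y - y) := by
  induction n with
  | zero => simp
  | succ n ih => rw [pow_succ', act_coc, h, ih, Nat.cast_succ, add_smul, one_smul]

theorem bas_sq {x a b : ℝ} (hx : 0 ≤ x) (h : x ≤ a + b) : x ^ 2 ≤ 2 * a ^ 2 + 2 * b ^ 2 := by
  nlinarith [sq_nonneg (a - b), pow_le_pow_left₀ hx h 2]

end Act

section Grp

variable {G : Type} [Group G]

theorem bas_one : Good (1 : G) :=
  ⟨∅, 0, le_rfl, fun H _ _ _ α y e _ _ => (bas_kap α 1 y _).2 fun n0 => by simp⟩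

theorem bas_map {G' : Type} [Group G'] (f : G →* G') (u : G) (h : Good u) : Good (f u) := by
  classical
  obtain ⟨S, C, hC, h⟩ := h
  exact ⟨S.image f, C, hC, fun H _ _ _ α y e he hs =>
    h H (α.comp f) y e he fun s m => hs _ (Finset.mem_image_of_mem _ m)⟩

theorem bas_inv (u : G) (h : Good u) : Good u⁻¹ := by
  obtain ⟨S, C, hC, h⟩ := h
  refine ⟨S, C, hC, fun H _ _ _ α y e he hs => (bas_kap α _ y _).2 fun n0 => ?_⟩
  have h1 := (bas_kap α _ y _).1 (h H α y e he hs) n0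
  refine le_of_eq_of_le (Finset.sum_congr rfl fun n _ => ?_) h1
  rw [inv_pow, disp_inv]

theorem bas_mul (u v : G) (huv : Commute u v) (hu : Good u) (hv : Good v) : Good (u * v) := by
  classical
  obtain ⟨S, C, hC, hu⟩ := hu
  obtain ⟨S', C', hC', hv⟩ := hv
  refine ⟨S ∪ S', 2 * C + 2 * C', by positivity,
    fun H _ _ _ α y e he hs => (bas_kap α _ y _).2 fun n0 => ?_⟩
  have h1 := (bas_kap α _ y _).1 (hu H α y e he fun s m => hs s (Finset.mem_union_left _ m)) n0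
  have h2 := (bas_kap α _ y _).1 (hv H α y e he fun s m => hs s (Finset.mem_union_right _ m)) n0
  have h3 : ∀ n ∈ Finset.range n0, ‖α ((u * v) ^ (n + 1)) y - y‖ ^ 2 / ((n : ℝ) + 1) ^ 2 ≤
      2 * (‖α (u ^ (n + 1)) y - y‖ ^ 2 / ((n : ℝ) + 1) ^ 2) +
      2 * (‖α (v ^ (n + 1)) y - y‖ ^ 2 / ((n : ℝ) + 1) ^ 2) := by
    intro n _
    rw [huv.mul_pow, ← mul_div_assoc, ← mul_div_assoc, ← add_div]
    exact div_le_div_of_nonneg_right (bas_sq (norm_nonneg _) (disp_mul α y _ _)) (sq_nonneg _)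
  refine (Finset.sum_le_sum h3).trans ?_
  rw [Finset.sum_add_distrib, ← Finset.mul_sum, ← Finset.mul_sum]
  linarith

theorem bas_pow (u : G) (k : ℕ) (h : Good u) : Good (u ^ k) := by
  induction k with
  | zero => rw [pow_zero]; exact bas_one
  | succ k ih => rw [pow_succ]; exact bas_mul _ _ ((Commute.refl u).pow_left k) ih h

theorem bas_root (u : G) (k : ℕ) (hk : 0 < k) (h : Good (u ^ k)) : Good u := by
  classical
  obtain ⟨S, C, hC, h⟩ := h
  refine ⟨insert u S, 2 * (k * C) + 4 * k ^ 2, by positivity,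
    fun H _ _ _ α y e he hs => (bas_kap α _ y _).2 fun n0 => ?_⟩
  have h1 := (bas_kap α _ y _).1 (h H α y e he fun s m => hs s (Finset.mem_insert_of_mem m)) n0
  have hu := hs u (Finset.mem_insert_self _ _)
  obtain ⟨a, ha⟩ : ∃ a : ℕ → ℝ, ∀ q, a q = ‖α ((u ^ k) ^ q) y - y‖ ^ 2 / (q : ℝ) ^ 2 :=
    ⟨_, fun _ => rfl⟩
  have ha0 : ∀ q, 0 ≤ a q := fun q => by rw [ha]; positivity
  have h2 := bas_block_le a ha0 hk n0
  have h3 : ∑ q ∈ Finset.range n0, a (q + 1) + a 0 ≤ C * e ^ 2 := by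
    have e0 : a 0 = 0 := by rw [ha]; simp
    rw [e0, add_zero]
    refine le_of_eq_of_le (Finset.sum_congr rfl fun n _ => ?_) h1
    rw [ha, Nat.cast_succ]
  have h4 : ∀ n ∈ Finset.range n0, ‖α (u ^ (n + 1)) y - y‖ ^ 2 / ((n : ℝ) + 1) ^ 2 ≤
      2 * a ((n + 1) / k) + 2 * (k * e) ^ 2 * (1 / ((n : ℝ) + 1) ^ 2) := by
    intro n _
    have e1 : u ^ (n + 1) = (u ^ k) ^ ((n + 1) / k) * u ^ ((n + 1) % k) := by
      rw [← pow_mul, ← pow_add, Nat.div_add_mod]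
    have e2 : ‖α (u ^ ((n + 1) % k)) y - y‖ ≤ k * e :=
      (bas_disp_pow α u y _).trans (mul_le_mul (Nat.cast_le.2 (Nat.mod_lt _ hk).le) hu
        (norm_nonneg _) (Nat.cast_nonneg _))
    have e3 : ‖α (u ^ (n + 1)) y - y‖ ≤ ‖α ((u ^ k) ^ ((n + 1) / k)) y - y‖ + k * e := by
      rw [e1]
      exact (disp_mul α y _ _).trans (add_le_add le_rfl e2)
    have e4 : ‖α ((u ^ k) ^ ((n + 1) / k)) y - y‖ ^ 2 / ((n : ℝ) + 1) ^ 2 ≤ a ((n + 1) / k) := by
      rcases Nat.eq_zero_or_pos ((n + 1) / k) with h0 | h0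
      · rw [h0, pow_zero, act_one, sub_self, norm_zero]
        simpa using ha0 0
      · rw [ha]
        have e5 : (((n + 1) / k : ℕ) : ℝ) ≤ (n : ℝ) + 1 := by
          exact_mod_cast Nat.div_le_self (n + 1) k
        have e6 : (0 : ℝ) < (((n + 1) / k : ℕ) : ℝ) := Nat.cast_pos.2 h0
        exact div_le_div_of_nonneg_left (sq_nonneg _) (by positivity)
          (pow_le_pow_left₀ e6.le e5 2)
    refine (div_le_div_of_nonneg_right (bas_sq (norm_nonneg _) e3) (sq_nonneg _)).trans ?_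
    rw [add_div, mul_div_assoc, mul_one_div]
    linarith
  refine (Finset.sum_le_sum h4).trans ?_
  rw [Finset.sum_add_distrib, ← Finset.mul_sum, ← Finset.mul_sum]
  have h5 := mul_le_mul_of_nonneg_left (bas_zeta n0) (show 0 ≤ 2 * ((k : ℝ) * e) ^ 2 by positivity)
  have h6 := mul_le_mul_of_nonneg_left h3 (Nat.cast_nonneg k : (0 : ℝ) ≤ k)
  nlinarith

theorem bas_fin (H : Type) [NormedAddCommGroup H] [InnerProductSpace ℂ H] [CompleteSpace H]
    (α : G →* (H ≃ᵃⁱ[ℂ] H)) (u : G) (h : Good u) (y : H) : ∃ K, Kap (α u) y K := by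
  obtain ⟨S, C, -, h⟩ := h
  exact ⟨_, h H α y (∑ s ∈ S, ‖α s y - y‖) (Finset.sum_nonneg fun _ _ => norm_nonneg _)
    fun s m => Finset.single_le_sum (f := fun s => ‖α s y - y‖) (fun _ _ => norm_nonneg _) m⟩

theorem bas_fix (H : Type) [NormedAddCommGroup H] [InnerProductSpace ℂ H] [CompleteSpace H]
    (α : G →* (H ≃ᵃⁱ[ℂ] H)) (u : G) (h : Good u) (hl : ∀ v, lin α u v = v) (y : H) :
    α u y = y := by
  obtain ⟨K, hK⟩ := bas_fin H α u h y
  have h1 : ∀ n0 : ℕ, (n0 : ℝ) * ‖α u y - y‖ ^ 2 ≤ K := by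
    intro n0
    refine le_of_eq_of_le ?_ ((bas_kap α _ y _).1 hK n0)
    rw [Finset.sum_congr rfl (g := fun _ => ‖α u y - y‖ ^ 2) fun n _ => by
      have e : ((n : ℝ) + 1) ^ 2 ≠ 0 := by positivity
      rw [bas_trans α u hl, norm_smul, Complex.norm_natCast, Nat.cast_succ, mul_pow,
        mul_div_cancel_left₀ _ e]]
    simp
  by_contra hne
  have h2 : 0 < ‖α u y - y‖ ^ 2 := pow_pos (norm_pos_iff.2 (sub_ne_zero.2 hne)) 2
  obtain ⟨n0, hn⟩ := exists_nat_gt (K / ‖α u y - y‖ ^ 2)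
  rw [div_lt_iff₀ h2] at hn
  exact absurd (h1 n0) (not_le.2 hn)

end Grp

theorem basSt : BasSt := fun _ _ =>
  ⟨bas_one, fun _ _ f u h => bas_map f u h,
    fun u g h => bas_map (MulAut.conj g).toMonoidHom u h, bas_inv, bas_mul, bas_pow, bas_root,
    fun H _ _ _ α u h => ⟨bas_fin H α u h, bas_fix H α u h⟩⟩

end Pool.Agent.ML
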