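import Pool.Agent.Lib.MP_c86c76_al.Lo.St

/-!
Central elements of the commutator subgroup are tame.
-/

set_option autoImplicit false

namespace Pool.Agent.ML

open Pool.Agent.MT
open scoped InnerProductSpace

variable {G : Type} [Group G]

/-- The pairing of the displacement with almost invariant vectors is quadratically small. -/
def cenP (m : G) : Prop := ∃ (S : Finset G) (C : ℝ), 0 ≤ C ∧
  ∀ (H : Type) [NormedAddCommGroup H] [InnerProductSpace ℂ H] (α : G →* (H ≃ᵃⁱ[ℂ] H)) (y w : H)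
    (e : ℝ), 0 ≤ e → (∀ t, ‖lin α t w - w‖ ≤ 8 * ‖α t y - y‖) → (∀ s ∈ S, ‖α s y - y‖ ≤ e) →
    ‖⟪w, α m y - y⟫_ℂ‖ ≤ C * e ^ 2 ∧ ‖α m y - y‖ ≤ C * e

section
variable {H : Type} [NormedAddCommGroup H] [InnerProductSpace ℂ H] {α : G →* (H ≃ᵃⁱ[ℂ] H)}
  {y w : H}

lemma cen_adj (g : G) (w v : H) : ⟪w, lin α g v⟫_ℂ = ⟪lin α g⁻¹ w, v⟫_ℂ := by
  rw [← (lin α g).inner_map_map (lin α g⁻¹ w), map_inv]
  exact congrArg (⟪·, _⟫_ℂ) ((lin α g).apply_symm_apply w).symm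

lemma cen_def (hw : ∀ t, ‖lin α t w - w‖ ≤ 8 * ‖α t y - y‖) (g h : G) {a b : ℝ}
    (ha : ‖α g y - y‖ ≤ a) (hb : ‖α h y - y‖ ≤ b) :
    ‖⟪w, α (g * h) y - y⟫_ℂ - ⟪w, α g y - y⟫_ℂ - ⟪w, α h y - y⟫_ℂ‖ ≤ 8 * (a * b) := by
  rw [act_coc, inner_add_right, add_sub_cancel_right, cen_adj, ← inner_sub_left, ← mul_assoc]
  refine (norm_inner_le_norm _ _).trans (mul_le_mul ((hw _).trans ?_) hb (norm_nonneg _) ?_)
  · rw [disp_inv]
    linarith
  · linarith [norm_nonneg (α g y - y)]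

lemma cen_inv0 (hw : ∀ t, ‖lin α t w - w‖ ≤ 8 * ‖α t y - y‖) (g : G) {a : ℝ}
    (ha : ‖α g y - y‖ ≤ a) : ‖⟪w, α g y - y⟫_ℂ + ⟪w, α g⁻¹ y - y⟫_ℂ‖ ≤ 8 * (a * a) := by
  have h := cen_def hw g g⁻¹ ha ((disp_inv α y g).trans_le ha)
  rwa [mul_inv_cancel, act_one, sub_self, inner_zero_right, sub_sub, zero_sub, norm_neg] at h

end

lemma cen_one : cenP (1 : G) :=
  ⟨∅, 0, le_rfl, fun H _ _ α y w e _ _ _ => by simp⟩

lemma cen_mul {g h : G} (hg : cenP g) (hh : cenP h) : cenP (g * h) := by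
  classical
  obtain ⟨S, C, h0, h1⟩ := hg
  obtain ⟨S', C', h0', h1'⟩ := hh
  refine ⟨S ∪ S', C + C' + 8 * (C * C'), by positivity, fun H _ _ α y w e he hw hS => ?_⟩
  obtain ⟨a1, a2⟩ := h1 H α y w e he hw fun s m => hS s (Finset.mem_union_left _ m)
  obtain ⟨b1, b2⟩ := h1' H α y w e he hw fun s m => hS s (Finset.mem_union_right _ m)
  have c1 := cen_def hw g h a2 b2
  have c2 := disp_mul α y g h
  have c3 : 0 ≤ C * C' * e := by positivity
  refine ⟨?_, by linarith⟩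
  have c4 := norm_add₃_le (a := ⟪w, α (g * h) y - y⟫_ℂ - ⟪w, α g y - y⟫_ℂ - ⟪w, α h y - y⟫_ℂ)
    (b := ⟪w, α h y - y⟫_ℂ) (c := ⟪w, α g y - y⟫_ℂ)
  rw [sub_add_cancel, sub_add_cancel] at c4
  nlinarith

lemma cen_inv {g : G} (hg : cenP g) : cenP g⁻¹ := by
  obtain ⟨S, C, h0, h1⟩ := hg
  refine ⟨S, C + 8 * (C * C), by positivity, fun H _ _ α y w e he hw hS => ?_⟩
  obtain ⟨a1, a2⟩ := h1 H α y w e he hw hS
  have c1 := cen_inv0 hw g a2
  have c2 := disp_inv α y g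
  have c3 : 0 ≤ C * C * e := by positivity
  refine ⟨?_, by linarith⟩
  have c4 := norm_sub_le (⟪w, α g y - y⟫_ℂ + ⟪w, α g⁻¹ y - y⟫_ℂ) ⟪w, α g y - y⟫_ℂ
  rw [add_sub_cancel_left] at c4
  nlinarith

lemma cen_comm (g h : G) : cenP (g * h * g⁻¹ * h⁻¹) := by
  classical
  refine ⟨{g, h}, 64, by norm_num, fun H _ _ α y w e he hw hS => ?_⟩
  have a1 := hS g (by simp)
  have a2 := hS h (by simp)
  have a3 := (disp_inv α y g).trans_le a1
  have a4 := (disp_inv α y h).trans_le a2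
  have b1 := (disp_mul α y g h).trans (add_le_add a1 a2)
  have b2 := (disp_mul α y (g * h) g⁻¹).trans (add_le_add b1 a3)
  have b3 := (disp_mul α y (g * h * g⁻¹) h⁻¹).trans (add_le_add b2 a4)
  refine ⟨?_, by linarith⟩
  have c := norm_add_le_of_le (norm_add_le_of_le (norm_add_le_of_le (norm_add_le_of_le
    (cen_def hw _ _ b2 a4) (cen_def hw _ _ b1 a3)) (cen_def hw _ _ a1 a2)) (cen_inv0 hw g a1))
    (cen_inv0 hw h a2)
  refine le_of_eq_of_le (congrArg _ (by ring)) (c.trans_eq (by ring))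

theorem cenSt (hO : OpSt) : CenSt := by
  intro G _ u hu hc
  have hP : cenP u := by
    rw [commutator_eq_closure] at hc
    clear hu
    induction hc using Subgroup.closure_induction with
    | mem x hx =>
      obtain ⟨g, h, rfl⟩ := hx
      exact cen_comm g h
    | one => exact cen_one
    | mul _ _ _ _ h1 h2 => exact cen_mul h1 h2
    | inv _ _ h1 => exact cen_inv h1
  obtain ⟨S, C, h0, h1⟩ := hP
  refine ⟨S, C, h0, fun H _ _ _ α y e he hS n0 => ?_⟩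
  have hD : ∀ n, ∑ i ∈ Finset.range n, lin α (u ^ i) (α u y - y) = α (u ^ n) y - y := fun n => by
    induction n with
    | zero => simp
    | succ n ih => rw [Finset.sum_range_succ, ih, pow_succ, act_coc, add_comm]
  have h2 := (h1 H α y (∑ n ∈ Finset.range n0, (((n : ℂ) + 1) ^ 2)⁻¹ •
    ∑ i ∈ Finset.range (n + 1), lin α (u ^ i)⁻¹ (α (u ^ (n + 1)) y - y)) e he (fun t => ?_) hS).1
  · refine le_of_eq_of_le ?_ ((Complex.re_le_norm _).trans h2)
    rw [sum_inner, Complex.re_sum]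
    refine Finset.sum_congr rfl fun n _ => ?_
    rw [inner_smul_left, sum_inner]
    simp only [← cen_adj]
    rw [← inner_sum, hD, inner_self_eq_norm_sq_to_K, map_pow α, div_eq_inv_mul]
    simp only [map_inv₀, map_pow, map_add, map_natCast, map_one]
    rw [← Complex.ofReal_re (_ * _)]
    congr 1
    push_cast
    rfl
  · refine le_of_eq_of_le ?_ (hO H (lin α u) n0 (α t y - y))
    rw [norm_sub_rev, map_sum, ← Finset.sum_sub_distrib]
    refine congrArg _ (Finset.sum_congr rfl fun n _ => ?_)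
    rw [map_smul, ← smul_sub, map_sum, ← Finset.sum_sub_distrib]
    refine congrArg _ (Finset.sum_congr rfl fun i _ => ?_)
    have e1 := act_coc α y t (u ^ (n + 1))
    rw [← ((hu t).pow_left (n + 1)).eq, act_coc] at e1
    have e2 : ∀ v, lin α t (lin α (u ^ i)⁻¹ v) = lin α (u ^ i)⁻¹ (lin α t v) := fun v => by
      show (lin α t * lin α (u ^ i)⁻¹) v = (lin α (u ^ i)⁻¹ * lin α t) v
      rw [← map_mul, ← map_mul, ((hu t).pow_left i).inv_left.eq]
    rw [e2, ← map_sub, ← map_inv, ← map_pow, ← map_pow, inv_pow]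
    exact congrArg _ (by rw [eq_sub_of_add_eq e1.symm]; abel)

end Pool.Agent.ML
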