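import Pool.Agent.Lib.MP_c86c76_al.Lo.St

/-!
The minimal displacement vector.
-/

set_option autoImplicit false

namespace Pool.Agent.ML

open Pool.Agent.MT Filter Topology Finset
open scoped InnerProductSpace

variable {G : Type} [Group G] {H : Type} [NormedAddCommGroup H] [InnerProductSpace ℂ H]

theorem min_abs [CompleteSpace H] {I : Type} (b : I → H → H)
    (hs : ∀ y, Summable fun i => ‖b i y‖ ^ 2)
    (hm : ∀ y y', ∃ z, ∀ i, b i y + b i y' = (2 : ℂ) • b i z) :
    ∃ (v : I → H) (d : ℝ), (∀ δ > 0, ∃ y, ∑' i, ‖b i y‖ ^ 2 < d + δ) ∧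
      ∀ (z : H) (T : Finset I), ∑ i ∈ T, ‖b i z - v i‖ ^ 2 ≤ 2 * (∑' i, ‖b i z‖ ^ 2 - d) := by
  set F : H → ℝ := fun y => ∑' i, ‖b i y‖ ^ 2 with hF
  have bd : BddBelow (Set.range F) :=
    ⟨0, Set.forall_mem_range.2 fun y => tsum_nonneg fun i => by positivity⟩
  set d := ⨅ y, F y
  have h1 : ∀ δ > 0, ∃ y, F y < d + δ := fun δ h => exists_lt_of_ciInf_lt (by linarith)
  have h2 : ∀ (y y' : H) (T : Finset I),
      ∑ i ∈ T, ‖b i y - b i y'‖ ^ 2 ≤ 2 * F y + 2 * F y' - 4 * d := fun y y' T => by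
    obtain ⟨z, hz⟩ := hm y y'
    have k := (((hs y).hasSum.mul_left 2).add ((hs y').hasSum.mul_left 2)).sub
      ((hs z).hasSum.mul_left 4)
    have e : ∀ i, 2 * ‖b i y‖ ^ 2 + 2 * ‖b i y'‖ ^ 2 - 4 * ‖b i z‖ ^ 2 = ‖b i y - b i y'‖ ^ 2 :=
      fun i => by
        have := parallelogram_law_with_norm ℂ (b i y) (b i y')
        rw [hz, norm_smul, Complex.norm_two] at this
        linarith
    simp only [e] at k
    have := sum_le_hasSum T (fun i _ => by positivity) k
    have := ciInf_le bd z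
    linarith
  choose y hy using fun n : ℕ => h1 (1 / ((n : ℝ) + 1)) (by positivity)
  have t0 := tendsto_one_div_add_atTop_nhds_zero_nat (𝕜 := ℝ)
  have h3 : ∀ i, ∃ v, Tendsto (fun n => b i (y n)) atTop (𝓝 v) := fun i => by
    refine cauchySeq_tendsto_of_complete (cauchySeq_of_le_tendsto_0
      (fun n : ℕ => √(4 * (1 / ((n : ℝ) + 1)))) (fun n m N hn hm => ?_)
      (by simpa using (t0.const_mul 4).sqrt))
    have k := h2 (y n) (y m) {i}
    rw [sum_singleton] at k
    rw [dist_eq_norm]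
    refine Real.le_sqrt_of_sq_le ?_
    linarith [hy n, hy m, Nat.one_div_le_one_div (α := ℝ) hn, Nat.one_div_le_one_div (α := ℝ) hm]
  choose v hv using h3
  refine ⟨v, d, h1, fun z T => ?_⟩
  have k := (t0.const_mul 2).const_add (2 * (F z - d))
  rw [mul_zero, add_zero] at k
  exact le_of_tendsto_of_tendsto' (tendsto_finsetSum T fun i _ =>
    ((hv i).const_sub _).norm.pow 2) k fun n => by linarith [h2 z (y n) T, hy n]

omit [InnerProductSpace ℂ H] in
theorem min_zero {x : H} (h : ∀ δ > 0, ∃ p q : H, ‖p‖ ^ 2 ≤ δ ∧ ‖q‖ ^ 2 ≤ δ ∧ x = p + q) :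
    x = 0 := by
  refine norm_le_zero_iff.1 (le_of_forall_pos_le_add fun ε hε => ?_)
  obtain ⟨p, q, h1, h2, rfl⟩ := h ((ε / 2) ^ 2) (by positivity)
  linarith [norm_add_le p q, (pow_le_pow_iff_left₀ (norm_nonneg _) (by positivity) two_ne_zero).1 h1,
    (pow_le_pow_iff_left₀ (norm_nonneg _) (by positivity) two_ne_zero).1 h2]

variable {S U : Finset G}

/-- The group elements that are tested. -/
def minG : (S ⊕ U) × ℕ → G
  | (.inl s, _) => s
  | (.inr u, n) => u ^ (n + 1)

/-- The weights. -/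
noncomputable def minC : (S ⊕ U) × ℕ → ℝ
  | (.inl _, n) => if n = 0 then 1 else 0
  | (.inr _, n) => ((n : ℝ) + 1)⁻¹

/-- The weighted displacements. -/
noncomputable def minB (α : G →* (H ≃ᵃⁱ[ℂ] H)) (i : (S ⊕ U) × ℕ) (y : H) : H :=
  (minC i : ℂ) • (α (minG i) y - y)

theorem min_inr (α : G →* (H ≃ᵃⁱ[ℂ] H)) (u : U) (n : ℕ) (y : H) :
    ‖minB (S := S) α (.inr u, n) y‖ ^ 2 = ‖(α u ^ (n + 1)) y - y‖ ^ 2 / ((n : ℝ) + 1) ^ 2 := by
  rw [minB, norm_smul, Complex.norm_real, mul_pow, Real.norm_eq_abs, sq_abs, minC, minG, map_pow,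
    inv_pow, div_eq_inv_mul]

theorem min_bd (α : G →* (H ≃ᵃⁱ[ℂ] H)) (y : H) {K : U → ℝ} (h : ∀ u : U, Kap (α u) y (K u))
    (T : Finset ((S ⊕ U) × ℕ)) :
    ∑ i ∈ T, ‖minB α i y‖ ^ 2 ≤ ∑ s : S, ‖α s y - y‖ ^ 2 + ∑ u, K u := by
  have h1 : T ⊆ univ ×ˢ range (T.sup Prod.snd + 1) := fun i hi =>
    mem_product.2 ⟨mem_univ _, mem_range.2 (Nat.lt_succ_of_le (le_sup (f := Prod.snd) hi))⟩
  refine (sum_le_sum_of_subset_of_nonneg h1 fun _ _ _ => by positivity).trans ?_
  rw [sum_product, Fintype.sum_sum_type]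
  refine add_le_add (sum_le_sum fun s _ => ?_) (sum_le_sum fun u _ => ?_)
  · rw [sum_range_succ']
    simp [minB, minC, minG]
  · simp only [min_inr]
    exact h u _

theorem min_kap (α : G →* (H ≃ᵃⁱ[ℂ] H)) {u : G} {y : H} {K : ℝ} (h : Kap (α u) y K) (x : H) :
    ∃ K, Kap (α u) x K := by
  have s : Summable fun n : ℕ => 8 * ‖x - y‖ ^ 2 / ((n : ℝ) + 1) ^ 2 := by
    simpa [div_eq_mul_inv] using ((summable_nat_add_iff 1).2
      (Real.summable_nat_pow_inv.2 one_lt_two)).mul_left (8 * ‖x - y‖ ^ 2)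
  refine ⟨2 * K + ∑' n : ℕ, 8 * ‖x - y‖ ^ 2 / ((n : ℝ) + 1) ^ 2, fun n0 => le_trans ?_
    (add_le_add (mul_le_mul_of_nonneg_left (h n0) zero_le_two)
      (s.sum_le_tsum (range n0) fun _ _ => by positivity))⟩
  rw [mul_sum, ← sum_add_distrib]
  refine sum_le_sum fun n _ => ?_
  rw [← mul_div_assoc, ← add_div, ← map_pow]
  refine div_le_div_of_nonneg_right ?_ (by positivity)
  have := pow_le_pow_left₀ (norm_nonneg _) (disp_near α x y (u ^ (n + 1))) 2
  nlinarith [sq_nonneg (‖α (u ^ (n + 1)) y - y‖ - 2 * ‖x - y‖)]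

theorem min_comm (α : G →* (H ≃ᵃⁱ[ℂ] H)) (P : Submodule ℂ H) [CompleteSpace P]
    (h : ∀ g, ∀ v ∈ P, lin α g v ∈ P) (g : G) (v : H) :
    P.starProjection (lin α g v) = lin α g (P.starProjection v) := by
  refine Submodule.eq_starProjection_of_mem_orthogonal (h g _ (P.starProjection_apply_mem v)) ?_
  rw [← map_sub, Submodule.mem_orthogonal]
  intro w hw
  have e : w = lin α g (lin α g⁻¹ w) := by
    rw [map_inv]
    exact ((lin α g).apply_symm_apply w).symm
  rw [e, LinearIsometryEquiv.inner_map_map]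
  exact (Submodule.mem_orthogonal _ _).1 (P.sub_starProjection_mem_orthogonal v) _ (h _ w hw)

theorem min_pyth (P : Submodule ℂ H) [CompleteSpace P] (x : H) (w : P) :
    ‖x - P.starProjection x + w‖ ^ 2 ≤ ‖x‖ ^ 2 + ‖w‖ ^ 2 := by
  have h1 := norm_add_sq_eq_norm_sq_add_norm_sq_of_inner_eq_zero _ _
    (P.starProjection_inner_eq_zero x w w.2)
  have h2 := Submodule.norm_sq_eq_add_norm_sq_starProjection x P
  rw [Submodule.starProjection_orthogonal_val] at h2
  rw [Submodule.coe_norm]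
  nlinarith [sq_nonneg ‖P.starProjection x‖]

theorem minSt : MinSt := by
  intro G _ H _ _ _ α S U hU
  have hs : ∀ y, Summable fun i => ‖minB (S := S) (U := U) α i y‖ ^ 2 := fun y => by
    choose K hK using fun u : U => (hU u u.2).elim fun _ h => h.elim fun _ h => min_kap α h y
    exact summable_of_sum_le (fun _ => by positivity) (min_bd α y hK)
  obtain ⟨v, d, h1, h2⟩ := min_abs _ hs fun y y' => ⟨(2 : ℂ)⁻¹ • (y' - y) + y, fun i => by
    simp only [minB, act_add, map_smul, lin_sub]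
    module⟩
  have h3 : ∀ z i, ‖minB α i z - v i‖ ^ 2 ≤ 2 * (∑' i, ‖minB α i z‖ ^ 2 - d) := fun z i => by
    simpa using h2 z {i}
  refine ⟨Set.range v, ?_, ?_, fun h ε hε => ?_⟩
  · rintro c hc _ ⟨i, rfl⟩
    have e : ∀ i y, minB (S := S) (U := U) α i (c y) = c.linearIsometryEquiv (minB α i y) :=
      fun i y => by
        have : α (minG i) (c y) = c (α (minG i) y) := DFunLike.congr_fun (hc (minG i)).symm.eq y
        rw [minB, minB, map_smul, this]
        exact congrArg _ (c.map_vsub _ _).symm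
    refine sub_eq_zero.1 (min_zero fun δ hδ => ?_)
    obtain ⟨y, hy⟩ := h1 (δ / 2) (by positivity)
    have k := h3 (c y) i
    simp only [e, LinearIsometryEquiv.norm_map] at k
    refine ⟨-c.linearIsometryEquiv (minB α i y - v i), _, ?_, k.trans (by linarith), ?_⟩
    · rw [norm_neg, LinearIsometryEquiv.norm_map]
      linarith [h3 y i]
    · rw [map_sub]
      abel
  · rintro P _ β hP hβ hS _ ⟨i, rfl⟩
    refine (P.starProjection_apply_eq_zero_iff).1 (min_zero fun δ hδ => ?_)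
    obtain ⟨y, hy⟩ := h1 (δ / 4) (by positivity)
    obtain ⟨ε, e0, e1, e2⟩ : ∃ ε : ℝ, 0 < ε ∧ ε ≤ 1 ∧ (#S + #U) * ε ≤ δ / 4 := by
      have p : (0 : ℝ) < #S + #U + 1 := by positivity
      refine ⟨min 1 (δ / 4 / (#S + #U + 1)), by positivity, min_le_left _ _, ?_⟩
      have := (le_div_iff₀ p).1 (min_le_right 1 (δ / 4 / (#S + #U + 1)))
      nlinarith [show (0 : ℝ) < min 1 (δ / 4 / (#S + #U + 1)) by positivity]
    obtain ⟨w, w1, w2⟩ := hS ε e0
    have k1 : ∀ T : Finset ((S ⊕ U) × ℕ), ∑ i ∈ T, ‖minB β i w‖ ^ 2 ≤ δ / 4 := fun T => by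
      refine (min_bd β w (fun u => w2 u u.2) T).trans (le_trans (add_le_add_left
        (sum_le_sum (g := fun _ => ε) fun s _ => ?_) _) ?_)
      · nlinarith [w1 s s.2, norm_nonneg (β s w - w)]
      · simpa [add_mul] using e2
    have k2 := summable_of_sum_le (fun _ => by positivity) k1
    have e : ∀ i, minB (S := S) (U := U) α i (P.starProjection (w - y) + y) =
        minB α i y - P.starProjection (minB α i y) + (minB β i w : P) := fun i => by
      rw [minB, act_add, ← min_comm α P hP, lin_sub]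
      simp only [minB, Submodule.coe_smul, Submodule.coe_sub, hβ, map_sub, map_smul,
        Submodule.starProjection_mem_subspace_eq_self]
      module
    have k3 : ∑' i, ‖minB (S := S) (U := U) α i (P.starProjection (w - y) + y)‖ ^ 2 ≤
        ∑' i, ‖minB (S := S) (U := U) α i y‖ ^ 2 + δ / 4 := by
      refine ((hs _).tsum_le_tsum (fun i => e i ▸ min_pyth P _ _) ((hs y).add k2)).trans ?_
      rw [(hs y).tsum_add k2]
      exact add_le_add_right (Real.tsum_le_of_sum_le (fun _ => by positivity) k1) _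
    have k4 := h3 (P.starProjection (w - y) + y) i
    refine ⟨-P.starProjection (minB α i (P.starProjection (w - y) + y) - v i), (minB β i w : P),
      ?_, ?_, ?_⟩
    · rw [norm_neg]
      exact (pow_le_pow_left₀ (norm_nonneg _) (P.norm_starProjection_apply_le _) 2).trans
        (by linarith)
    · have := k1 {i}
      rw [sum_singleton] at this
      exact le_trans this (by linarith)
    · rw [e, map_sub, map_add, P.starProjection_apply_eq_zero_iff.2
        (P.sub_starProjection_mem_orthogonal _), Submodule.starProjection_mem_subspace_eq_self]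
      abel
  · obtain ⟨y, hy⟩ := h1 (min ε (ε ^ 2) / 2) (by positivity)
    have k : ∀ T : Finset ((S ⊕ U) × ℕ), ∑ i ∈ T, ‖minB α i y‖ ^ 2 ≤ min ε (ε ^ 2) := fun T => by
      have := h2 y T
      simp only [h _ ⟨_, rfl⟩, sub_zero] at this
      linarith
    refine ⟨y, fun s hs => ?_, fun u hu n0 => ?_⟩
    · have := (k {(.inl ⟨s, hs⟩, 0)}).trans (min_le_right _ _)
      refine (pow_le_pow_iff_left₀ (norm_nonneg _) hε.le two_ne_zero).1 ?_
      simpa [minB, minC, minG] using this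
    · have := (k ((range n0).map
        ⟨fun n => (.inr ⟨u, hu⟩, n), fun _ _ e => (Prod.ext_iff.1 e).2⟩)).trans (min_le_left _ _)
      simpa only [sum_map, Function.Embedding.coeFn_mk, min_inr] using this

end Pool.Agent.ML
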