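import Pool.Agent.Lib.MP_c86c76_al.Lo.St

/-!
The operator bound for the cusp norm.
-/

set_option autoImplicit false

namespace Pool.Agent.ML

open Finset

theorem Op_term {z : ℂ} (hz : ‖z‖ = 1) (n : ℕ) :
    ‖(((n : ℂ) + 1) ^ 2)⁻¹ * ((∑ i ∈ range (n + 1), star z ^ i) * (1 - z ^ (n + 1)))‖ ≤
      16 / (‖1 - z‖ * n + 2) - 16 / (‖1 - z‖ * ((n + 1 : ℕ) : ℝ) + 2) := by
  have hs : ‖star z‖ = 1 := by rw [norm_star, hz]
  set s := ‖∑ i ∈ range (n + 1), star z ^ i‖ with hsd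
  set d := ‖1 - z‖ with hd
  have s0 : 0 ≤ s := norm_nonneg _
  have d0 : 0 ≤ d := norm_nonneg _
  have n0 : (0 : ℝ) ≤ n := Nat.cast_nonneg n
  have h1 : s ≤ n + 1 := (norm_sum_le _ _).trans (by simp [hz])
  have h2 : ‖1 - z ^ (n + 1)‖ = s * d := by
    rw [← norm_star, star_sub, star_one, star_pow, ← geom_sum_mul_neg, norm_mul, hd,
      ← norm_star (1 - z), star_sub, star_one]
  have h3 : s * d ≤ 2 := h2 ▸ (norm_sub_le _ _).trans (by simp [hz]; norm_num)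
  have h4 : ‖(((n : ℂ) + 1) ^ 2)⁻¹‖ = (((n : ℝ) + 1) ^ 2)⁻¹ := by
    rw [norm_inv, norm_pow, ← Nat.cast_succ, Complex.norm_natCast, Nat.cast_succ]
  have h5 : s * (d * (n + 1) + 2) ≤ 4 * (n + 1) := by nlinarith
  have h6 : s * (d * n + 2) ≤ 4 * (n + 1) := by nlinarith
  have h7 := mul_le_mul h5 h6 (by positivity) (by positivity)
  rw [norm_mul, norm_mul, h2, h4, Nat.cast_succ, div_sub_div _ _ (by positivity) (by positivity),
    inv_mul_eq_div, div_le_div_iff₀ (by positivity) (by positivity)]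
  nlinarith [mul_le_mul_of_nonneg_left h7 d0]

theorem Op_sum {z : ℂ} (hz : ‖z‖ = 1) (n0 : ℕ) :
    ‖∑ n ∈ range n0, (((n : ℂ) + 1) ^ 2)⁻¹ *
      ((∑ i ∈ range (n + 1), star z ^ i) * (1 - z ^ (n + 1)))‖ ≤ 8 := by
  refine (norm_sum_le _ _).trans ((sum_le_sum fun n _ => Op_term hz n).trans ?_)
  rw [sum_range_sub' fun n : ℕ => 16 / (‖1 - z‖ * n + 2)]
  have : 0 ≤ 16 / (‖1 - z‖ * n0 + 2) := by positivity
  norm_num
  linarith

theorem opSt : OpSt := by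
  intro H _ _ _ U n0 v
  obtain ⟨u, rfl⟩ := (Unitary.linearIsometryEquiv (𝕜 := ℂ) (H := H)).surjective U
  have hn : IsStarNormal (u : H →L[ℂ] H) := ⟨u.2.1.trans u.2.2.symm⟩
  let Z : C(spectrum ℂ (u : H →L[ℂ] H), ℂ) := (ContinuousMap.id ℂ).restrict _
  have h1 : ‖∑ n ∈ range n0, (((n : ℂ) + 1) ^ 2)⁻¹ •
      ((∑ i ∈ range (n + 1), star Z ^ i) * (1 - Z ^ (n + 1)))‖ ≤ 8 :=
    (ContinuousMap.norm_le _ (by norm_num)).2 fun x => by
      simpa [Z] using Op_sum (mem_sphere_zero_iff_norm.1 (Unitary.spectrum_subset_circle u x.2)) n0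
  rw [← norm_cfcHom (u : H →L[ℂ] H) _ hn] at h1
  simp only [map_sum, map_smul, map_mul, map_sub, map_one, map_pow, map_star, Z, cfcHom_id] at h1
  refine le_trans (le_of_eq ?_) ((ContinuousLinearMap.le_opNorm _ v).trans
    (mul_le_mul_of_nonneg_right h1 (norm_nonneg v)))
  congr 1
  simp only [_root_.sum_apply, _root_.smul_apply, mul_apply_eq_comp, _root_.sub_apply,
    one_apply_eq_self, ← map_inv, ← map_pow]
  rfl

end Pool.Agent.ML
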