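import Pool.Agent.Lib.MP_c86c76_al.S.Aff

/-!
Cusp norms, tame elements and the local lemma: definitions and statements.
-/

set_option autoImplicit false

namespace Pool.Agent.ML

open Pool.Agent.MT

section Defs

variable {G : Type} [Group G] {H : Type} [NormedAddCommGroup H] [InnerProductSpace ℂ H]

/-- A bound for the cusp norm. -/
def Kap (T : H ≃ᵃⁱ[ℂ] H) (y : H) (K : ℝ) : Prop :=
  ∀ n0 : ℕ, ∑ n ∈ Finset.range n0, ‖(T ^ (n + 1)) y - y‖ ^ 2 / ((n : ℝ) + 1) ^ 2 ≤ K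

/-- The cusp norm of `u` is bounded by the displacement under a finite set. -/
def Good (u : G) : Prop := ∃ (S : Finset G) (C : ℝ), 0 ≤ C ∧
  ∀ (H : Type) [NormedAddCommGroup H] [InnerProductSpace ℂ H] [CompleteSpace H]
    (α : G →* (H ≃ᵃⁱ[ℂ] H)) (y : H) (e : ℝ), 0 ≤ e → (∀ s ∈ S, ‖α s y - y‖ ≤ e) →
    Kap (α u) y (C * e ^ 2)

/-- Some point has small displacements and small cusp norms. -/
def Small (α : G →* (H ≃ᵃⁱ[ℂ] H)) (S U : Finset G) : Prop :=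
  ∀ ε : ℝ, 0 < ε → ∃ y, (∀ s ∈ S, ‖α s y - y‖ ≤ ε) ∧ ∀ u ∈ U, Kap (α u) y ε

/-- Smallness for all finite families. -/
def LocA (α : G →* (H ≃ᵃⁱ[ℂ] H)) : Prop :=
  ∀ S U : Finset G, (∀ u ∈ U, Good u) → Small α S U

/-- Actions without `P`-invariant vectors have almost fixed points. -/
def WR (P : Subgroup G) : Prop :=
  ∀ (H : Type) [NormedAddCommGroup H] [InnerProductSpace ℂ H] [CompleteSpace H]
    (α : G →* (H ≃ᵃⁱ[ℂ] H)), (∀ v, (∀ p ∈ P, lin α p v = v) → v = 0) →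
    ∀ (S : Finset G) (ε : ℝ), 0 < ε → ∃ x, ∀ s ∈ S, ‖α s x - x‖ < ε

/-- Every action of `G` is small on `K`. -/
def Loc {K : Type} [Group K] (k : K →* G) : Prop :=
  ∀ (H : Type) [NormedAddCommGroup H] [InnerProductSpace ℂ H] [CompleteSpace H]
    (α : G →* (H ≃ᵃⁱ[ℂ] H)), LocA (α.comp k)

end Defs

/-- Closure properties of tame elements. -/
def BasSt : Prop := ∀ (G : Type) [Group G],
  Good (1 : G) ∧
  (∀ (G' : Type) [Group G'] (f : G →* G') (u : G), Good u → Good (f u)) ∧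
  (∀ u g : G, Good u → Good (g * u * g⁻¹)) ∧
  (∀ u : G, Good u → Good u⁻¹) ∧
  (∀ u v : G, Commute u v → Good u → Good v → Good (u * v)) ∧
  (∀ (u : G) (k : ℕ), Good u → Good (u ^ k)) ∧
  (∀ (u : G) (k : ℕ), 0 < k → Good (u ^ k) → Good u) ∧
  (∀ (H : Type) [NormedAddCommGroup H] [InnerProductSpace ℂ H] [CompleteSpace H]
    (α : G →* (H ≃ᵃⁱ[ℂ] H)) (u : G), Good u →
    (∀ y, ∃ K, Kap (α u) y K) ∧ ((∀ v, lin α u v = v) → ∀ y, α u y = y))

/-- The operator bound. -/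
def OpSt : Prop := ∀ (H : Type) [NormedAddCommGroup H] [InnerProductSpace ℂ H] [CompleteSpace H]
  (U : H ≃ₗᵢ[ℂ] H) (n0 : ℕ) (v : H),
  ‖∑ n ∈ Finset.range n0, (((n : ℂ) + 1) ^ 2)⁻¹ •
    ∑ i ∈ Finset.range (n + 1), (U⁻¹ ^ i) (v - (U ^ (n + 1)) v)‖ ≤ 8 * ‖v‖

/-- Central elements of the commutator subgroup are tame. -/
def CenSt : Prop := ∀ (G : Type) [Group G] (u : G), (∀ g, Commute u g) → u ∈ commutator G → Good u

/-- The minimal displacement vector. -/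
def MinSt : Prop := ∀ (G : Type) [Group G] (H : Type) [NormedAddCommGroup H]
  [InnerProductSpace ℂ H] [CompleteSpace H] (α : G →* (H ≃ᵃⁱ[ℂ] H)) (S U : Finset G),
  (∀ u ∈ U, ∃ y K, Kap (α u) y K) → ∃ V : Set H,
    (∀ c : H ≃ᵃⁱ[ℂ] H, (∀ g, Commute c (α g)) → ∀ v ∈ V, c.linearIsometryEquiv v = v) ∧
    (∀ (P : Submodule ℂ H) [CompleteSpace P] (β : G →* (P ≃ᵃⁱ[ℂ] P)),
      (∀ g, ∀ v ∈ P, lin α g v ∈ P) →
      (∀ g (x : P), (β g x : H) = P.starProjection (α g x)) → Small β S U → ∀ v ∈ V, v ∈ Pᗮ) ∧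
    ((∀ v ∈ V, v = 0) → Small α S U)

/-- The compression of an action to an invariant subspace. -/
def ResSt : Prop := ∀ (G : Type) [Group G] (H : Type) [NormedAddCommGroup H]
  [InnerProductSpace ℂ H] [CompleteSpace H] (α : G →* (H ≃ᵃⁱ[ℂ] H)) (P : Submodule ℂ H)
  [CompleteSpace P], (∀ g, ∀ v ∈ P, lin α g v ∈ P) → ∃ β : G →* (P ≃ᵃⁱ[ℂ] P),
    (∀ g (x : P), (β g x : H) = P.starProjection (α g x)) ∧
    ∀ g (v : P), (lin β g v : H) = lin α g v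

/-- One step of the local lemma. -/
def StepSt : Prop := ∀ (K G0 G : Type) [Group K] [Group G0] [Group G] (k : K →* G) (j : G0 →* G)
  (P0 : Subgroup G0) (N : Subgroup G) (C : Set G), P0.Normal → N.Normal → WR P0 →
  (∀ x, k x ∈ j.range) → (∀ c ∈ C, ∀ x, Commute c (k x)) →
  N ≤ Subgroup.closure (C ∪ j '' P0) →
  (∀ (H : Type) [NormedAddCommGroup H] [InnerProductSpace ℂ H] [CompleteSpace H]
    (β : G →* (H ≃ᵃⁱ[ℂ] H)), (∀ n ∈ N, ∀ v, lin β n v = v) → LocA (β.comp k)) →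
  Loc k

end Pool.Agent.ML
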