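import Pool.Agent.Lib.MP_c86c76_al.Lo.Loc
import Pool.Agent.Lib.MP_c86c76_al.Lo.Bas
import Pool.Agent.Lib.MP_c86c76_al.Lo.Op
import Pool.Agent.Lib.MP_c86c76_al.Lo.Cen
import Pool.Agent.Lib.MP_c86c76_al.Lo.Min
import Pool.Agent.Lib.MP_c86c76_al.Lo.Res
import Pool.Agent.Lib.MP_c86c76_al.Tk.St
import Pool.Agent.Lib.MP_c86c76_al.Tg.Gam

/-!
The local lemma, assembled.
-/

set_option autoImplicit false

namespace Pool.Agent.ML

open Pool.Agent.MB Pool.Agent.MG Pool.Agent.MT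
open Pool.Agent.MW (Gam)

/-- The base in genus four. -/
def WR42 : Prop := WR (PP 4)

theorem cen : CenSt := cenSt opSt

theorem step : StepSt := stepSt basSt minSt resSt

theorem loc1 (hW : WR42) {G K : Type} [Group G] [Group K] (f : St 5 →* G) (k : K →* G)
    (h : ∀ x, ∃ y, k x = f (exS 4 y)) : Loc k := loc1G basSt cen step hW f k h

theorem loc2 (hW : WR42) {G K : Type} [Group G] [Group K] (f : Gam 5 →* G) (k : K →* G)
    (h : ∀ x, ∃ y, k x = f (k2 y)) : Loc k := loc2G basSt cen step hW f k h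

theorem Loc.comp {K K' G G' : Type} [Group K] [Group K'] [Group G] [Group G'] {k : K →* G}
    (h : Loc k) (f : G →* G') (e : K' →* K) : Loc (f.comp (k.comp e)) := by
  classical
  intro H _ _ _ α S U hU ε hε
  obtain ⟨y, a, b⟩ := h H (α.comp f) (S.image e) (U.image e) (fun u hu => by
    obtain ⟨v, hv, rfl⟩ := Finset.mem_image.1 hu
    exact (basSt _).2.1 _ e v (hU v hv)) ε hε
  exact ⟨y, fun s hs => a _ (Finset.mem_image_of_mem e hs),
    fun u hu => b _ (Finset.mem_image_of_mem e hu)⟩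

theorem good_g3 (i : ℕ) : Good (tG3.t i) := good3 basSt cen i

theorem ex_fix {g : ℕ} (φ : St (g + 1)) (h1 : φ.1 (io _ (2 * g)) = io _ (2 * g))
    (h2 : φ.1 (io _ (2 * g + 1)) = io _ (2 * g + 1)) : ∃ ψ, φ = exS g ψ := by
  obtain ⟨f0, d0, -⟩ := rwASt (2 * g) g rfl
  obtain ⟨-, -, c, hc⟩ := rwASt (2 * g + 2) (g + 1) rfl
  have hr : c.r = ev (2 * g + 2) (rW (g + 1)) := by rw [Ctx.r, hc, Raw_ev]
  obtain ⟨ψ, e, t⟩ := abSt dualA rawSt (2 * g) c (rW g) (Raw_full _ _ f0).2 hc d0 φ.1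
    (by rw [hr]; exact φ.2) h1 h2
  exact ⟨⟨ψ, e⟩, Subtype.ext t⟩

theorem fr_fix {g : ℕ} (φ : St (g + 1)) (h1 : φ.1 (io _ 0) = io _ 0)
    (h2 : φ.1 (io _ 1) = io _ 1) : ∃ ψ, φ = frS g ψ := by
  let n := 2 * g
  let φ0 : MulAut (FN (n + 2)) := φ.1
  let χ : MulAut (FN (n + 2)) := ka n * φ0 * (ka n)⁻¹
  have k : ∀ y, φ0 y = y → χ (ka n y) = ka n y := fun y e =>
    (congrArg (fun t => ka n (φ0 t)) ((ka n).symm_apply_apply y)).trans (congrArg _ e)
  have a0 := k (io (n + 2) 0) h1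
  have a1 := k (io (n + 2) 1) h2
  have a2 := k (ev (n + 2) (rW (g + 1))) φ.2
  rw [ka_low (by omega), Nat.zero_add] at a0
  rw [ka_low (by omega), Nat.add_comm 1 n] at a1
  have a3 : χ (ev _ (hd n)) = ev _ (hd n) := by
    simp only [ev, hd, Raw_cons, Raw_nil, cond_true, cond_false, map_mul, map_inv, map_one, a0, a1]
  rw [(rwBSt n g rfl).2.2.1, map_mul, a3, mul_left_inj] at a2
  have a4 : ev (n + 2) (rW (g + 1)) = ev _ (hd n) * inc n (ev n (rW g)) := by
    rw [Raw_inc _ _ (Raw_full _ _ (rwASt n g rfl).1).2]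
    exact RwB_succ _ g
  obtain ⟨ψ, e⟩ := ex_fix (g := g) ⟨χ, by
    change χ (ev (n + 2) _) = ev (n + 2) _
    rw [a4, map_mul, a3, a2]⟩ a0 a1
  refine ⟨ψ, Subtype.ext ?_⟩
  change φ0 = frH n ψ.1
  rw [frH_apply, frA, ← show χ = exA n ψ.1 from congrArg Subtype.val e]
  simp only [χ, mul_assoc, inv_mul_cancel_left, inv_mul_cancel, mul_one]

theorem frG_fix {h : ℕ} (φ : Gam (h + 1)) (h1 : φ.1 (io _ 0) = io _ 0)
    (h2 : φ.1 (io _ 1) = io _ 1) : ∃ ψ, φ = frG h ψ := by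
  obtain ⟨ψ, e⟩ := fr_fix (g := h + 1) ⟨φ.1, φ.2.1⟩ h1 h2
  have e' : φ.1 = frH _ ψ.1 := congrArg Subtype.val e
  refine ⟨⟨ψ.1, ψ.2, ?_⟩, Subtype.ext e'⟩
  have b : φ.1 _ = _ := φ.2.2
  rw [e', frH_apply] at b
  have c := (ka (2 * (h + 1))).symm_apply_eq.1 b
  change exA _ _ (ka _ (io (2 * (h + 1) + 2) _)) = ka _ (io (2 * (h + 1) + 2) _) at c
  rw [show 2 * (h + 1 + 1) - 2 = 2 * (h + 1) - 2 + 2 by omega, ka_io (by omega),
    ← inc_io (by omega), exA_inc] at c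
  exact sd_inc_inj _ c

theorem k2_fix (φ : Gam 5) (h : ∀ i < 4, φ.1 (io _ i) = io _ i) : ∃ y, φ = k2 y := by
  obtain ⟨ψ, rfl⟩ := frG_fix φ (h 0 (by omega)) (h 1 (by omega))
  have t : ∀ i < 2, ψ.1 (io _ i) = io _ i := fun i hi => by
    have c := (ka (2 * (4 + 1))).symm_apply_eq.1
      ((congrArg (fun χ : MulAut _ => χ _) (frH_apply _ ψ.1)).symm.trans (h (i + 2) (by omega)))
    change exA _ _ (ka _ _) = _ at c
    rw [ka_io (by omega), ← inc_io (by omega), exA_inc] at c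
    exact sd_inc_inj _ c
  obtain ⟨y, rfl⟩ := frG_fix ψ (t 0 (by omega)) (t 1 (by omega))
  exact ⟨y, rfl⟩

theorem cjG_surj {h : ℕ} (θ : MulAut (FN (2 * (h + 1)))) (h1 : θ ∈ St (h + 1))
    (h2 : θ ((io _ (2 * (h + 1) - 2))⁻¹ * ev _ (rW (h + 1))) = io _ (2 * (h + 1) - 2))
    (ψ : Gam h) : ∃ χ : Gam h, χ.1 = θ⁻¹ * ψ.1 * θ ∧ cjG θ h1 h2 χ = ψ := by
  have r : θ _ = _ := h1
  have a : ψ.1 _ = _ := ψ.2.1
  have b : ψ.1 _ = _ := ψ.2.2
  rw [map_mul, map_inv, r, inv_mul_eq_iff_eq_mul, ← mul_inv_eq_iff_eq_mul] at h2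
  refine ⟨⟨θ⁻¹ * ψ.1 * θ, (St _).mul_mem ((St _).mul_mem ((St _).inv_mem h1) ψ.2.1) h1, ?_⟩, rfl,
    Subtype.ext ?_⟩
  · refine θ.symm_apply_eq.2 ?_
    change ψ.1 (θ _) = _
    rw [← h2, map_mul, map_inv, a, b]
  · change θ * (θ⁻¹ * ψ.1 * θ) * θ⁻¹ = _
    group

theorem goodSt : MK.GoodSt := by
  refine ⟨fun ψ h => ?_, fun p hp => ?_⟩
  · obtain ⟨k, a, b⟩ := isT_ofA (h := 3) ⟨h, ψ.2.2⟩
    rw [show ψ = tG3.t k from Subtype.ext (b.eq (stdB_is tG3_std a))]
    exact good_g3 k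
  have key : ∀ (E : Gam 3) (q : SA), okS (2 * (3 + 1)) q = true → E.1 = aut _ q →
      agR (2 * (3 + 1)) q (fun x => (eR 3 p (ecR 3 p)).getD x []) = true → MK.IsE 3 p E.1 := by
    intro E q o e t
    have d : MK.dd 3 p = gw (io _) (ecR 3 p) := by
      have : eqF ([(6, false)] ++ rW (3 + 1) ++ iv (rW (3 - p))) (ecR 3 p) = true := by
        interval_cases p <;> decide +kernel
      rw [← Raw_eqF _ _ _ this, Raw_append, Raw_append, Raw_neg, Raw_iv]
      rfl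
    have a : ∀ x < 8, E.1 (io _ x) = gw (io _) (if x = 2 * 3 + 1 then rd (ecR 3 p ++ [(x, true)])
        else if 2 * (3 - p) ≤ x ∧ x < 2 * 3 then rd (ecR 3 p ++ [(x, true)] ++ iv (ecR 3 p))
        else [(x, true)]) := fun x hx => by
      rw [e, (agR_ok o t).1 x hx, eR, List.getD_eq_getElem _ _ (by simpa using hx),
        List.getElem_map, List.getElem_range]
    refine ⟨?_, fun j h1 h2 => ?_, fun j h => ?_⟩
    · rw [a _ (by omega), if_pos rfl, Raw_rd, Raw_append, Raw_pos, d]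
    · rw [a _ (by omega), if_neg (by omega), if_pos ⟨h1, h2⟩, Raw_rd, conj_of, Raw_pos, d]
    · rw [a _ (by omega), if_neg (by omega), if_neg (by omega), Raw_pos]
  by_cases h0 : p = 0
  · subst h0
    refine ⟨(tG3.t 9)⁻¹, key _ (eS 3 0) (by decide +kernel) ?_ (by decide +kernel),
      (basSt _).2.2.2.1 _ (good_g3 9)⟩
    have := same_ok (n := 2 * (3 + 1)) (L := [twS 9, eS 3 0]) (u := [(0, false)]) (v := [(1, true)])
      (by decide +kernel) (by decide +kernel)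
    rw [Raw_neg, Raw_pos] at this
    exact this
  · refine ⟨tG3.t (9 + p), key _ _ (Raw_ok_getD _ _ tG3.ok _) rfl ?_, good_g3 _⟩
    interval_cases p
    · omega
    all_goals decide +kernel

theorem locO (hW : WR (PP 4)) {g : ℕ} (hg : 5 ≤ g) : Loc (MK.Fo g).subtype := by
  have key : ∃ f : St 5 →* St g, ∀ x ∈ MK.Fo g, ∃ y, x = f (exS 4 y) := by
    induction g, hg using Nat.le_induction with
    | base => exact ⟨MonoidHom.id _, fun x hx =>
        ex_fix x (hx _ ⟨8, le_rfl, rfl⟩) (hx _ ⟨9, by omega, rfl⟩)⟩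
    | succ g hg ih =>
      obtain ⟨f, hf⟩ := ih
      refine ⟨(exS g).comp f, fun x hx => ?_⟩
      obtain ⟨ψ, rfl⟩ := ex_fix x (hx _ ⟨2 * g, by omega, rfl⟩) (hx _ ⟨2 * g + 1, by omega, rfl⟩)
      obtain ⟨y, e⟩ := hf ψ (by
        rintro _ ⟨j, hj, rfl⟩
        by_cases c : j < 2 * g
        · have t : exA _ ψ.1 (io (2 * g + 2) j) = io (2 * g + 2) j := hx _ ⟨j, hj, rfl⟩
          rw [← inc_io c, exA_inc] at t
          exact sd_inc_inj _ t
        · rw [Lick_big (not_lt.1 c), map_one])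
      exact ⟨y, congrArg _ e⟩
  obtain ⟨f, hf⟩ := key
  exact loc1 hW f _ fun x => hf x.1 x.2

theorem Tab.ex {n : ℕ} {Γ : Subgroup (MulAut (FN n))} (T : Tab n Γ) (c : RW) :
    ∃ θ : Γ, ∀ u v, eqF (act T.L c u) v = true → θ.1 (ev _ u) = ev _ v :=
  ⟨gw T.t c, fun u _ e => (congrArg (fun φ : MulAut (FN n) => φ _)
    (Raw_map T.t _ Γ.subtype c)).trans ((Raw_act _ T.L T.ok c u).trans (Raw_eqF _ _ _ e))⟩

/-- The table with the flip in genus five. -/
def tS6 : Tab (2 * 6) (St 6) := tabS 6 (twL 14 ++ [flS 5]) (by decide +kernel) (by decide +kernel)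

/-- The word that carries the first two handles to the foot. -/
def thW : RW := (14, true) :: (List.replicate 17 [(0, false), (1, false), (2, false), (4, false),
  (5, false), (7, false), (8, false), (10, false), (11, false), (13, false)]).flatten

/-- The loops at the foot. -/
def inW : List RW :=
  [[(11, false), (8, true), (4, false), (7, true), (9, true), (11, true)],
    [(11, false), (8, true), (7, true), (6, false), (9, true), (11, true)],
    [(11, false), (8, true), (6, false), (9, true), (11, true)],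
    [(11, false), (8, true), (9, true), (8, false), (11, true)]]

/-- The images of the first four letters as words in these loops. -/
def inV : List RW :=
  [[(2, false), (1, true), (0, false), (2, true)], [(1, false), (2, true)],
    [(3, true), (2, false), (1, true), (0, false)], [(3, false)]]

theorem locI (hW : WR (PP 4)) : Loc MK.Fi.subtype := by
  obtain ⟨θ, ac⟩ := tS6.ex thW
  have h2 : θ.1 ((io _ (2 * (5 + 1) - 2))⁻¹ * ev _ (rW (5 + 1))) = io _ (2 * (5 + 1) - 2) := by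
    have := ac ([(10, false)] ++ rW 6) [(10, true)] (by decide +kernel)
    rwa [ev, ev, Raw_append, Raw_pos, Raw_neg] at this
  refine loc2 hW (cjG θ.1 θ.2 h2) _ fun x => ?_
  obtain ⟨χ, a, b⟩ := cjG_surj θ.1 θ.2 h2 x.1
  have w : ∀ j < 4, x.1.1 (gw (io _) (inW.getD j [(j, true)])) =
      gw (io _) (inW.getD j [(j, true)]) := fun j hj => by
    have t := x.2 _ ⟨j + 6, by omega, by omega, rfl⟩
    have l : ∀ i < 10, MW.inG 5 (io 11 i) = io 12 i := fun i hi => MW.Gam_in_low (h := 5) hi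
    have e : (io _ (2 * 5 + 1))⁻¹ * MW.inG 5 ((MW.wl _ 5 10)⁻¹ * MW.wl _ 5 (j + 6)) *
        io _ (2 * 5 + 1) = gw (io (2 * (5 + 1))) (inW.getD j [(j, true)]) := by
      interval_cases j <;>
        simp [MW.wl, MW.be, List.range', l, inW, Raw_cons, Raw_nil, mul_assoc]
    exact e ▸ t
  obtain ⟨y, e⟩ := k2_fix χ fun i hi => by
    have t : eqF (act tS6.L thW [(i, true)]) (sub inW (inV.getD i [])) = true ∧
        bd 4 (inV.getD i []) = true := by interval_cases i <;> decide +kernel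
    have u := ac _ _ t.1
    rw [ev, Raw_pos, ev, Raw_sub] at u
    rw [a]
    refine θ.1.symm_apply_eq.2 ?_
    change x.1.1 (θ.1 _) = _
    rw [u]
    exact Raw_mem _ (MonoidHom.eqLocus x.1.1.toMonoidHom (MonoidHom.id _)) 4 _ w t.2
  exact ⟨y, e ▸ b.symm⟩

end Pool.Agent.ML
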