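import Pool.Agent.Lib.MP_c86c76_al.B.Defs

/-!
Words for the local lemma.
-/

set_option autoImplicit false

namespace Pool.Agent.ML

open Pool.Agent.MB

/-- The swap of two handles and the pushes of the foot. -/
def qL : List SA :=
  [([[(1,true),(0,true),(1,false),(0,false),(2,true),(0,true),(1,true),(0,false),(1,false)],[(1,true),(0,true),(1,false),(0,false),(3,true),(0,true),(1,true),(0,false),(1,false)],[(0,true)],[(1,true)],[(4,true)],[(5,true)],[(6,true)],[(7,true)],[(8,true)],[(9,true)],[(10,true)],[(11,true)]],
   [[(2,true)],[(3,true)],[(2,true),(3,true),(2,false),(3,false),(0,true),(3,true),(2,true),(3,false),(2,false)],[(2,true),(3,true),(2,false),(3,false),(1,true),(3,true),(2,true),(3,false),(2,false)],[(4,true)],[(5,true)],[(6,true)],[(7,true)],[(8,true)],[(9,true)],[(10,true)],[(11,true)]]),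
  ([[(11,true),(10,false),(11,false),(0,true),(11,true),(10,true),(11,false)],[(1,true),(11,true),(10,true),(11,false)],[(11,true),(10,false),(11,false),(0,true),(11,true),(10,true),(11,false),(0,false),(2,true),(0,true),(11,true),(10,false),(11,false),(0,false),(11,true),(10,true),(11,false)],[(11,true),(10,false),(11,false),(0,true),(11,true),(10,true),(11,false),(0,false),(3,true),(0,true),(11,true),(10,false),(11,false),(0,false),(11,true),(10,true),(11,false)],[(11,true),(10,false),(11,false),(0,true),(11,true),(10,true),(11,false),(0,false),(4,true),(0,true),(11,true),(10,false),(11,false),(0,false),(11,true),(10,true),(11,false)],[(11,true),(10,false),(11,false),(0,true),(11,true),(10,true),(11,false),(0,false),(5,true),(0,true),(11,true),(10,false),(11,false),(0,false),(11,true),(10,true),(11,false)],[(11,true),(10,false),(11,false),(0,true),(11,true),(10,true),(11,false),(0,false),(6,true),(0,true),(11,true),(10,false),(11,false),(0,false),(11,true),(10,true),(11,false)],[(11,true),(10,false),(11,false),(0,true),(11,true),(10,true),(11,false),(0,false),(7,true),(0,true),(11,true),(10,false),(11,false),(0,false),(11,true),(10,true),(11,false)],[(11,true),(10,false),(11,false),(0,true),(11,true),(10,true),(11,false),(0,false),(8,true),(0,true),(11,true),(10,false),(11,false),(0,false),(11,true),(10,true),(11,false)],[(11,true),(10,false),(11,false),(0,true),(11,true),(10,true),(11,false),(0,false),(9,true),(0,true),(11,true),(10,false),(11,false),(0,false),(11,true),(10,true),(11,false)],[(10,true)],[(11,true),(10,false),(11,false),(0,true),(11,true)]],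
   [[(0,false),(11,true),(10,true),(11,false),(0,true),(11,true),(10,false),(11,false),(0,true)],[(1,true),(0,false),(11,true),(10,false),(11,false),(0,true)],[(0,false),(11,true),(10,true),(11,false),(0,true),(11,true),(10,false),(11,false),(2,true),(11,true),(10,true),(11,false),(0,false),(11,true),(10,false),(11,false),(0,true)],[(0,false),(11,true),(10,true),(11,false),(0,true),(11,true),(10,false),(11,false),(3,true),(11,true),(10,true),(11,false),(0,false),(11,true),(10,false),(11,false),(0,true)],[(0,false),(11,true),(10,true),(11,false),(0,true),(11,true),(10,false),(11,false),(4,true),(11,true),(10,true),(11,false),(0,false),(11,true),(10,false),(11,false),(0,true)],[(0,false),(11,true),(10,true),(11,false),(0,true),(11,true),(10,false),(11,false),(5,true),(11,true),(10,true),(11,false),(0,false),(11,true),(10,false),(11,false),(0,true)],[(0,false),(11,true),(10,true),(11,false),(0,true),(11,true),(10,false),(11,false),(6,true),(11,true),(10,true),(11,false),(0,false),(11,true),(10,false),(11,false),(0,true)],[(0,false),(11,true),(10,true),(11,false),(0,true),(11,true),(10,false),(11,false),(7,true),(11,true),(10,true),(11,false),(0,false),(11,true),(10,false),(11,false),(0,true)],[(0,false),(11,true),(10,true),(11,false),(0,true),(11,true),(10,false),(11,false),(8,true),(11,true),(10,true),(11,false),(0,false),(11,true),(10,false),(11,false),(0,true)],[(0,false),(11,true),(10,true),(11,false),(0,true),(11,true),(10,false),(11,false),(9,true),(11,true),(10,true),(11,false),(0,false),(11,true),(10,false),(11,false),(0,true)],[(10,true)],[(0,false),(11,true),(10,true)]]),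
  ([[(1,true),(11,true),(10,true),(11,false),(1,false),(11,true),(10,false),(11,false),(0,true),(1,true),(11,true),(10,false),(11,false),(1,false)],[(1,true),(11,true),(10,true),(11,false),(1,true),(11,true),(10,false),(11,false),(1,false)],[(1,true),(11,true),(10,true),(11,false),(1,false),(11,true),(10,false),(11,false),(2,true),(11,true),(10,true),(11,false),(1,true),(11,true),(10,false),(11,false),(1,false)],[(1,true),(11,true),(10,true),(11,false),(1,false),(11,true),(10,false),(11,false),(3,true),(11,true),(10,true),(11,false),(1,true),(11,true),(10,false),(11,false),(1,false)],[(1,true),(11,true),(10,true),(11,false),(1,false),(11,true),(10,false),(11,false),(4,true),(11,true),(10,true),(11,false),(1,true),(11,true),(10,false),(11,false),(1,false)],[(1,true),(11,true),(10,true),(11,false),(1,false),(11,true),(10,false),(11,false),(5,true),(11,true),(10,true),(11,false),(1,true),(11,true),(10,false),(11,false),(1,false)],[(1,true),(11,true),(10,true),(11,false),(1,false),(11,true),(10,false),(11,false),(6,true),(11,true),(10,true),(11,false),(1,true),(11,true),(10,false),(11,false),(1,false)],[(1,true),(11,true),(10,true),(11,false),(1,false),(11,true),(10,false),(11,false),(7,true),(11,true),(10,true),(11,false),(1,true),(11,true),(10,false),(11,false),(1,false)],[(1,true),(11,true),(10,true),(11,false),(1,false),(11,true),(10,false),(11,false),(8,true),(11,true),(10,true),(11,false),(1,true),(11,true),(10,false),(11,false),(1,false)],[(1,true),(11,true),(10,true),(11,false),(1,false),(11,true),(10,false),(11,false),(9,true),(11,true),(10,true),(11,false),(1,true),(11,true),(10,false),(11,false),(1,false)],[(10,true)],[(1,true),(11,true)]],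
   [[(11,true),(10,false),(11,false),(1,false),(11,true),(10,true),(11,false),(1,true),(0,true),(11,true),(10,true),(11,false)],[(11,true),(10,false),(11,false),(1,true),(11,true),(10,true),(11,false)],[(11,true),(10,false),(11,false),(1,false),(11,true),(10,true),(11,false),(1,true),(2,true),(1,false),(11,true),(10,false),(11,false),(1,true),(11,true),(10,true),(11,false)],[(11,true),(10,false),(11,false),(1,false),(11,true),(10,true),(11,false),(1,true),(3,true),(1,false),(11,true),(10,false),(11,false),(1,true),(11,true),(10,true),(11,false)],[(11,true),(10,false),(11,false),(1,false),(11,true),(10,true),(11,false),(1,true),(4,true),(1,false),(11,true),(10,false),(11,false),(1,true),(11,true),(10,true),(11,false)],[(11,true),(10,false),(11,false),(1,false),(11,true),(10,true),(11,false),(1,true),(5,true),(1,false),(11,true),(10,false),(11,false),(1,true),(11,true),(10,true),(11,false)],[(11,true),(10,false),(11,false),(1,false),(11,true),(10,true),(11,false),(1,true),(6,true),(1,false),(11,true),(10,false),(11,false),(1,true),(11,true),(10,true),(11,false)],[(11,true),(10,false),(11,false),(1,false),(11,true),(10,true),(11,false),(1,true),(7,true),(1,false),(11,true),(10,false),(11,false),(1,true),(11,true),(10,true),(11,false)],[(11,true),(10,false),(11,false),(1,false),(11,true),(10,true),(11,false),(1,true),(8,true),(1,false),(11,true),(10,false),(11,false),(1,true),(11,true),(10,true),(11,false)],[(11,true),(10,false),(11,false),(1,false),(11,true),(10,true),(11,false),(1,true),(9,true),(1,false),(11,true),(10,false),(11,false),(1,true),(11,true),(10,true),(11,false)],[(10,true)],[(11,true),(10,false),(11,false),(1,false),(11,true),(10,true)]]),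
  ([[(0,true)],[(1,true)],[(11,true),(10,false),(11,false),(2,true),(11,true),(10,true),(11,false)],[(3,true),(11,true),(10,true),(11,false)],[(11,true),(10,false),(11,false),(2,true),(11,true),(10,true),(11,false),(2,false),(4,true),(2,true),(11,true),(10,false),(11,false),(2,false),(11,true),(10,true),(11,false)],[(11,true),(10,false),(11,false),(2,true),(11,true),(10,true),(11,false),(2,false),(5,true),(2,true),(11,true),(10,false),(11,false),(2,false),(11,true),(10,true),(11,false)],[(11,true),(10,false),(11,false),(2,true),(11,true),(10,true),(11,false),(2,false),(6,true),(2,true),(11,true),(10,false),(11,false),(2,false),(11,true),(10,true),(11,false)],[(11,true),(10,false),(11,false),(2,true),(11,true),(10,true),(11,false),(2,false),(7,true),(2,true),(11,true),(10,false),(11,false),(2,false),(11,true),(10,true),(11,false)],[(11,true),(10,false),(11,false),(2,true),(11,true),(10,true),(11,false),(2,false),(8,true),(2,true),(11,true),(10,false),(11,false),(2,false),(11,true),(10,true),(11,false)],[(11,true),(10,false),(11,false),(2,true),(11,true),(10,true),(11,false),(2,false),(9,true),(2,true),(11,true),(10,false),(11,false),(2,false),(11,true),(10,true),(11,false)],[(10,true)],[(11,true),(10,false),(11,false),(2,true),(11,true)]],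
   [[(0,true)],[(1,true)],[(2,false),(11,true),(10,true),(11,false),(2,true),(11,true),(10,false),(11,false),(2,true)],[(3,true),(2,false),(11,true),(10,false),(11,false),(2,true)],[(2,false),(11,true),(10,true),(11,false),(2,true),(11,true),(10,false),(11,false),(4,true),(11,true),(10,true),(11,false),(2,false),(11,true),(10,false),(11,false),(2,true)],[(2,false),(11,true),(10,true),(11,false),(2,true),(11,true),(10,false),(11,false),(5,true),(11,true),(10,true),(11,false),(2,false),(11,true),(10,false),(11,false),(2,true)],[(2,false),(11,true),(10,true),(11,false),(2,true),(11,true),(10,false),(11,false),(6,true),(11,true),(10,true),(11,false),(2,false),(11,true),(10,false),(11,false),(2,true)],[(2,false),(11,true),(10,true),(11,false),(2,true),(11,true),(10,false),(11,false),(7,true),(11,true),(10,true),(11,false),(2,false),(11,true),(10,false),(11,false),(2,true)],[(2,false),(11,true),(10,true),(11,false),(2,true),(11,true),(10,false),(11,false),(8,true),(11,true),(10,true),(11,false),(2,false),(11,true),(10,false),(11,false),(2,true)],[(2,false),(11,true),(10,true),(11,false),(2,true),(11,true),(10,false),(11,false),(9,true),(11,true),(10,true),(11,false),(2,false),(11,true),(10,false),(11,false),(2,true)],[(10,true)],[(2,false),(11,true),(10,true)]]),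
  ([[(0,true)],[(1,true)],[(3,true),(11,true),(10,true),(11,false),(3,false),(11,true),(10,false),(11,false),(2,true),(3,true),(11,true),(10,false),(11,false),(3,false)],[(3,true),(11,true),(10,true),(11,false),(3,true),(11,true),(10,false),(11,false),(3,false)],[(3,true),(11,true),(10,true),(11,false),(3,false),(11,true),(10,false),(11,false),(4,true),(11,true),(10,true),(11,false),(3,true),(11,true),(10,false),(11,false),(3,false)],[(3,true),(11,true),(10,true),(11,false),(3,false),(11,true),(10,false),(11,false),(5,true),(11,true),(10,true),(11,false),(3,true),(11,true),(10,false),(11,false),(3,false)],[(3,true),(11,true),(10,true),(11,false),(3,false),(11,true),(10,false),(11,false),(6,true),(11,true),(10,true),(11,false),(3,true),(11,true),(10,false),(11,false),(3,false)],[(3,true),(11,true),(10,true),(11,false),(3,false),(11,true),(10,false),(11,false),(7,true),(11,true),(10,true),(11,false),(3,true),(11,true),(10,false),(11,false),(3,false)],[(3,true),(11,true),(10,true),(11,false),(3,false),(11,true),(10,false),(11,false),(8,true),(11,true),(10,true),(11,false),(3,true),(11,true),(10,false),(11,false),(3,false)],[(3,true),(11,true),(10,true),(11,false),(3,false),(11,true),(10,false),(11,false),(9,true),(11,true),(10,true),(11,false),(3,true),(11,true),(10,false),(11,false),(3,false)],[(10,true)],[(3,true),(11,true)]],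
   [[(0,true)],[(1,true)],[(11,true),(10,false),(11,false),(3,false),(11,true),(10,true),(11,false),(3,true),(2,true),(11,true),(10,true),(11,false)],[(11,true),(10,false),(11,false),(3,true),(11,true),(10,true),(11,false)],[(11,true),(10,false),(11,false),(3,false),(11,true),(10,true),(11,false),(3,true),(4,true),(3,false),(11,true),(10,false),(11,false),(3,true),(11,true),(10,true),(11,false)],[(11,true),(10,false),(11,false),(3,false),(11,true),(10,true),(11,false),(3,true),(5,true),(3,false),(11,true),(10,false),(11,false),(3,true),(11,true),(10,true),(11,false)],[(11,true),(10,false),(11,false),(3,false),(11,true),(10,true),(11,false),(3,true),(6,true),(3,false),(11,true),(10,false),(11,false),(3,true),(11,true),(10,true),(11,false)],[(11,true),(10,false),(11,false),(3,false),(11,true),(10,true),(11,false),(3,true),(7,true),(3,false),(11,true),(10,false),(11,false),(3,true),(11,true),(10,true),(11,false)],[(11,true),(10,false),(11,false),(3,false),(11,true),(10,true),(11,false),(3,true),(8,true),(3,false),(11,true),(10,false),(11,false),(3,true),(11,true),(10,true),(11,false)],[(11,true),(10,false),(11,false),(3,false),(11,true),(10,true),(11,false),(3,true),(9,true),(3,false),(11,true),(10,false),(11,false),(3,true),(11,true),(10,true),(11,false)],[(10,true)],[(11,true),(10,false),(11,false),(3,false),(11,true),(10,true)]]),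
  ([[(0,true)],[(1,true)],[(2,true)],[(3,true)],[(11,true),(10,false),(11,false),(4,true),(11,true),(10,true),(11,false)],[(5,true),(11,true),(10,true),(11,false)],[(11,true),(10,false),(11,false),(4,true),(11,true),(10,true),(11,false),(4,false),(6,true),(4,true),(11,true),(10,false),(11,false),(4,false),(11,true),(10,true),(11,false)],[(11,true),(10,false),(11,false),(4,true),(11,true),(10,true),(11,false),(4,false),(7,true),(4,true),(11,true),(10,false),(11,false),(4,false),(11,true),(10,true),(11,false)],[(11,true),(10,false),(11,false),(4,true),(11,true),(10,true),(11,false),(4,false),(8,true),(4,true),(11,true),(10,false),(11,false),(4,false),(11,true),(10,true),(11,false)],[(11,true),(10,false),(11,false),(4,true),(11,true),(10,true),(11,false),(4,false),(9,true),(4,true),(11,true),(10,false),(11,false),(4,false),(11,true),(10,true),(11,false)],[(10,true)],[(11,true),(10,false),(11,false),(4,true),(11,true)]],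
   [[(0,true)],[(1,true)],[(2,true)],[(3,true)],[(4,false),(11,true),(10,true),(11,false),(4,true),(11,true),(10,false),(11,false),(4,true)],[(5,true),(4,false),(11,true),(10,false),(11,false),(4,true)],[(4,false),(11,true),(10,true),(11,false),(4,true),(11,true),(10,false),(11,false),(6,true),(11,true),(10,true),(11,false),(4,false),(11,true),(10,false),(11,false),(4,true)],[(4,false),(11,true),(10,true),(11,false),(4,true),(11,true),(10,false),(11,false),(7,true),(11,true),(10,true),(11,false),(4,false),(11,true),(10,false),(11,false),(4,true)],[(4,false),(11,true),(10,true),(11,false),(4,true),(11,true),(10,false),(11,false),(8,true),(11,true),(10,true),(11,false),(4,false),(11,true),(10,false),(11,false),(4,true)],[(4,false),(11,true),(10,true),(11,false),(4,true),(11,true),(10,false),(11,false),(9,true),(11,true),(10,true),(11,false),(4,false),(11,true),(10,false),(11,false),(4,true)],[(10,true)],[(4,false),(11,true),(10,true)]]),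
  ([[(0,true)],[(1,true)],[(2,true)],[(3,true)],[(5,true),(11,true),(10,true),(11,false),(5,false),(11,true),(10,false),(11,false),(4,true),(5,true),(11,true),(10,false),(11,false),(5,false)],[(5,true),(11,true),(10,true),(11,false),(5,true),(11,true),(10,false),(11,false),(5,false)],[(5,true),(11,true),(10,true),(11,false),(5,false),(11,true),(10,false),(11,false),(6,true),(11,true),(10,true),(11,false),(5,true),(11,true),(10,false),(11,false),(5,false)],[(5,true),(11,true),(10,true),(11,false),(5,false),(11,true),(10,false),(11,false),(7,true),(11,true),(10,true),(11,false),(5,true),(11,true),(10,false),(11,false),(5,false)],[(5,true),(11,true),(10,true),(11,false),(5,false),(11,true),(10,false),(11,false),(8,true),(11,true),(10,true),(11,false),(5,true),(11,true),(10,false),(11,false),(5,false)],[(5,true),(11,true),(10,true),(11,false),(5,false),(11,true),(10,false),(11,false),(9,true),(11,true),(10,true),(11,false),(5,true),(11,true),(10,false),(11,false),(5,false)],[(10,true)],[(5,true),(11,true)]],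
   [[(0,true)],[(1,true)],[(2,true)],[(3,true)],[(11,true),(10,false),(11,false),(5,false),(11,true),(10,true),(11,false),(5,true),(4,true),(11,true),(10,true),(11,false)],[(11,true),(10,false),(11,false),(5,true),(11,true),(10,true),(11,false)],[(11,true),(10,false),(11,false),(5,false),(11,true),(10,true),(11,false),(5,true),(6,true),(5,false),(11,true),(10,false),(11,false),(5,true),(11,true),(10,true),(11,false)],[(11,true),(10,false),(11,false),(5,false),(11,true),(10,true),(11,false),(5,true),(7,true),(5,false),(11,true),(10,false),(11,false),(5,true),(11,true),(10,true),(11,false)],[(11,true),(10,false),(11,false),(5,false),(11,true),(10,true),(11,false),(5,true),(8,true),(5,false),(11,true),(10,false),(11,false),(5,true),(11,true),(10,true),(11,false)],[(11,true),(10,false),(11,false),(5,false),(11,true),(10,true),(11,false),(5,true),(9,true),(5,false),(11,true),(10,false),(11,false),(5,true),(11,true),(10,true),(11,false)],[(10,true)],[(11,true),(10,false),(11,false),(5,false),(11,true),(10,true)]]),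
  ([[(0,true)],[(1,true)],[(2,true)],[(3,true)],[(4,true)],[(5,true)],[(11,true),(10,false),(11,false),(6,true),(11,true),(10,true),(11,false)],[(7,true),(11,true),(10,true),(11,false)],[(11,true),(10,false),(11,false),(6,true),(11,true),(10,true),(11,false),(6,false),(8,true),(6,true),(11,true),(10,false),(11,false),(6,false),(11,true),(10,true),(11,false)],[(11,true),(10,false),(11,false),(6,true),(11,true),(10,true),(11,false),(6,false),(9,true),(6,true),(11,true),(10,false),(11,false),(6,false),(11,true),(10,true),(11,false)],[(10,true)],[(11,true),(10,false),(11,false),(6,true),(11,true)]],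
   [[(0,true)],[(1,true)],[(2,true)],[(3,true)],[(4,true)],[(5,true)],[(6,false),(11,true),(10,true),(11,false),(6,true),(11,true),(10,false),(11,false),(6,true)],[(7,true),(6,false),(11,true),(10,false),(11,false),(6,true)],[(6,false),(11,true),(10,true),(11,false),(6,true),(11,true),(10,false),(11,false),(8,true),(11,true),(10,true),(11,false),(6,false),(11,true),(10,false),(11,false),(6,true)],[(6,false),(11,true),(10,true),(11,false),(6,true),(11,true),(10,false),(11,false),(9,true),(11,true),(10,true),(11,false),(6,false),(11,true),(10,false),(11,false),(6,true)],[(10,true)],[(6,false),(11,true),(10,true)]]),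
  ([[(0,true)],[(1,true)],[(2,true)],[(3,true)],[(4,true)],[(5,true)],[(7,true),(11,true),(10,true),(11,false),(7,false),(11,true),(10,false),(11,false),(6,true),(7,true),(11,true),(10,false),(11,false),(7,false)],[(7,true),(11,true),(10,true),(11,false),(7,true),(11,true),(10,false),(11,false),(7,false)],[(7,true),(11,true),(10,true),(11,false),(7,false),(11,true),(10,false),(11,false),(8,true),(11,true),(10,true),(11,false),(7,true),(11,true),(10,false),(11,false),(7,false)],[(7,true),(11,true),(10,true),(11,false),(7,false),(11,true),(10,false),(11,false),(9,true),(11,true),(10,true),(11,false),(7,true),(11,true),(10,false),(11,false),(7,false)],[(10,true)],[(7,true),(11,true)]],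
   [[(0,true)],[(1,true)],[(2,true)],[(3,true)],[(4,true)],[(5,true)],[(11,true),(10,false),(11,false),(7,false),(11,true),(10,true),(11,false),(7,true),(6,true),(11,true),(10,true),(11,false)],[(11,true),(10,false),(11,false),(7,true),(11,true),(10,true),(11,false)],[(11,true),(10,false),(11,false),(7,false),(11,true),(10,true),(11,false),(7,true),(8,true),(7,false),(11,true),(10,false),(11,false),(7,true),(11,true),(10,true),(11,false)],[(11,true),(10,false),(11,false),(7,false),(11,true),(10,true),(11,false),(7,true),(9,true),(7,false),(11,true),(10,false),(11,false),(7,true),(11,true),(10,true),(11,false)],[(10,true)],[(11,true),(10,false),(11,false),(7,false),(11,true),(10,true)]]),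
  ([[(0,true)],[(1,true)],[(2,true)],[(3,true)],[(4,true)],[(5,true)],[(6,true)],[(7,true)],[(11,true),(10,false),(11,false),(8,true),(11,true),(10,true),(11,false)],[(9,true),(11,true),(10,true),(11,false)],[(10,true)],[(11,true),(10,false),(11,false),(8,true),(11,true)]],
   [[(0,true)],[(1,true)],[(2,true)],[(3,true)],[(4,true)],[(5,true)],[(6,true)],[(7,true)],[(8,false),(11,true),(10,true),(11,false),(8,true),(11,true),(10,false),(11,false),(8,true)],[(9,true),(8,false),(11,true),(10,false),(11,false),(8,true)],[(10,true)],[(8,false),(11,true),(10,true)]]),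
  ([[(0,true)],[(1,true)],[(2,true)],[(3,true)],[(4,true)],[(5,true)],[(6,true)],[(7,true)],[(9,true),(11,true),(10,true),(11,false),(9,false),(11,true),(10,false),(11,false),(8,true),(9,true),(11,true),(10,false),(11,false),(9,false)],[(9,true),(11,true),(10,true),(11,false),(9,true),(11,true),(10,false),(11,false),(9,false)],[(10,true)],[(9,true),(11,true)]],
   [[(0,true)],[(1,true)],[(2,true)],[(3,true)],[(4,true)],[(5,true)],[(6,true)],[(7,true)],[(11,true),(10,false),(11,false),(9,false),(11,true),(10,true),(11,false),(9,true),(8,true),(11,true),(10,true),(11,false)],[(11,true),(10,false),(11,false),(9,true),(11,true),(10,true),(11,false)],[(10,true)],[(11,true),(10,false),(11,false),(9,false),(11,true),(10,true)]])]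

/-- The conjugates of the pushes. -/
def qT : List (List RW) :=
  [[[(0,true)],[(0,true),(1,true)],[(2,true)],[(3,true)],[(4,true)],[(5,true)],[(6,true)],[(7,true)],[(8,true)],[(9,true)],[(10,true)]],
  [[(0,true)],[(0,false),(1,true)],[(2,true)],[(3,true)],[(4,true)],[(5,true)],[(6,true)],[(7,true)],[(8,true)],[(9,true)],[(10,true)]],
  [[(1,false),(0,true),(10,false)],[(1,true)],[(2,true)],[(3,true)],[(4,true)],[(5,true)],[(6,true)],[(7,true)],[(8,true)],[(9,true)],[(10,true)]],
  [[(1,true),(0,true),(10,true)],[(1,true)],[(2,true)],[(3,true)],[(4,true)],[(5,true)],[(6,true)],[(7,true)],[(8,true)],[(9,true)],[(10,true)]],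
  [[(0,true),(3,false),(2,false),(3,true),(0,true),(3,false),(2,true),(3,true),(0,false)],[(0,true),(3,false),(2,false),(3,true),(1,true),(10,true)],[(2,true)],[(2,true),(3,true),(0,false),(10,false)],[(4,true)],[(5,true)],[(6,true)],[(7,true)],[(8,true)],[(9,true)],[(10,true)]],
  [[(3,false),(2,true),(3,true),(0,true),(3,false),(2,false),(3,true)],[(3,false),(2,true),(3,true),(0,false),(1,true),(10,false)],[(2,true)],[(3,true),(0,true),(3,false),(2,false),(3,true),(10,true)],[(4,true)],[(5,true)],[(6,true)],[(7,true)],[(8,true)],[(9,true)],[(10,true)]],
  [[(0,true)],[(1,true)],[(2,true)],[(2,true),(3,true)],[(4,true)],[(5,true)],[(6,true)],[(7,true)],[(8,true)],[(9,true)],[(10,true)]],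
  [[(0,true)],[(1,true)],[(2,true)],[(2,false),(3,true)],[(4,true)],[(5,true)],[(6,true)],[(7,true)],[(8,true)],[(9,true)],[(10,true)]],
  [[(0,true)],[(1,true)],[(3,false),(2,true),(10,false)],[(3,true)],[(4,true)],[(5,true)],[(6,true)],[(7,true)],[(8,true)],[(9,true)],[(10,true)]],
  [[(0,true)],[(1,true)],[(3,true),(2,true),(10,true)],[(3,true)],[(4,true)],[(5,true)],[(6,true)],[(7,true)],[(8,true)],[(9,true)],[(10,true)]],
  [[(0,true)],[(1,true)],[(2,true),(5,false),(4,false),(5,true),(2,true),(5,false),(4,true),(5,true),(2,false)],[(2,true),(5,false),(4,false),(5,true),(3,true),(10,true)],[(4,true)],[(4,true),(5,true),(2,false),(10,false)],[(6,true)],[(7,true)],[(8,true)],[(9,true)],[(10,true)]],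
  [[(0,true)],[(1,true)],[(5,false),(4,true),(5,true),(2,true),(5,false),(4,false),(5,true)],[(5,false),(4,true),(5,true),(2,false),(3,true),(10,false)],[(4,true)],[(5,true),(2,true),(5,false),(4,false),(5,true),(10,true)],[(6,true)],[(7,true)],[(8,true)],[(9,true)],[(10,true)]],
  [[(0,true)],[(1,true)],[(2,true)],[(3,true)],[(4,true)],[(4,true),(5,true)],[(6,true)],[(7,true)],[(8,true)],[(9,true)],[(10,true)]],
  [[(0,true)],[(1,true)],[(2,true)],[(3,true)],[(4,true)],[(4,false),(5,true)],[(6,true)],[(7,true)],[(8,true)],[(9,true)],[(10,true)]],
  [[(0,true)],[(1,true)],[(2,true)],[(3,true)],[(5,false),(4,true),(10,false)],[(5,true)],[(6,true)],[(7,true)],[(8,true)],[(9,true)],[(10,true)]],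
  [[(0,true)],[(1,true)],[(2,true)],[(3,true)],[(5,true),(4,true),(10,true)],[(5,true)],[(6,true)],[(7,true)],[(8,true)],[(9,true)],[(10,true)]],
  [[(0,true)],[(1,true)],[(2,true)],[(3,true)],[(4,true),(7,false),(6,false),(7,true),(4,true),(7,false),(6,true),(7,true),(4,false)],[(4,true),(7,false),(6,false),(7,true),(5,true),(10,true)],[(6,true)],[(6,true),(7,true),(4,false),(10,false)],[(8,true)],[(9,true)],[(10,true)]],
  [[(0,true)],[(1,true)],[(2,true)],[(3,true)],[(7,false),(6,true),(7,true),(4,true),(7,false),(6,false),(7,true)],[(7,false),(6,true),(7,true),(4,false),(5,true),(10,false)],[(6,true)],[(7,true),(4,true),(7,false),(6,false),(7,true),(10,true)],[(8,true)],[(9,true)],[(10,true)]],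
  [[(0,true)],[(1,true)],[(2,true)],[(3,true)],[(4,true)],[(5,true)],[(6,true)],[(6,true),(7,true)],[(8,true)],[(9,true)],[(10,true)]],
  [[(0,true)],[(1,true)],[(2,true)],[(3,true)],[(4,true)],[(5,true)],[(6,true)],[(6,false),(7,true)],[(8,true)],[(9,true)],[(10,true)]],
  [[(0,true)],[(1,true)],[(2,true)],[(3,true)],[(4,true)],[(5,true)],[(7,false),(6,true),(10,false)],[(7,true)],[(8,true)],[(9,true)],[(10,true)]],
  [[(0,true)],[(1,true)],[(2,true)],[(3,true)],[(4,true)],[(5,true)],[(7,true),(6,true),(10,true)],[(7,true)],[(8,true)],[(9,true)],[(10,true)]],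
  [[(0,true)],[(1,true)],[(2,true)],[(3,true)],[(4,true)],[(5,true)],[(6,true),(9,false),(8,false),(9,true),(6,true),(9,false),(8,true),(9,true),(6,false)],[(6,true),(9,false),(8,false),(9,true),(7,true),(10,true)],[(8,true)],[(8,true),(9,true),(6,false),(10,false)],[(10,true)]],
  [[(0,true)],[(1,true)],[(2,true)],[(3,true)],[(4,true)],[(5,true)],[(9,false),(8,true),(9,true),(6,true),(9,false),(8,false),(9,true)],[(9,false),(8,true),(9,true),(6,false),(7,true),(10,false)],[(8,true)],[(9,true),(6,true),(9,false),(8,false),(9,true),(10,true)],[(10,true)]],
  [[(0,true)],[(1,true)],[(2,true)],[(3,true)],[(4,true)],[(5,true)],[(6,true)],[(7,true)],[(8,true)],[(8,true),(9,true)],[(10,true)]],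
  [[(0,true)],[(1,true)],[(2,true)],[(3,true)],[(4,true)],[(5,true)],[(6,true)],[(7,true)],[(8,true)],[(8,false),(9,true)],[(10,true)]],
  [[(0,true)],[(1,true)],[(2,true)],[(3,true)],[(4,true)],[(5,true)],[(6,true)],[(7,true)],[(9,false),(8,true),(10,false)],[(9,true)],[(10,true)]],
  [[(0,true)],[(1,true)],[(2,true)],[(3,true)],[(4,true)],[(5,true)],[(6,true)],[(7,true)],[(9,true),(8,true),(10,true)],[(9,true)],[(10,true)]],
  [[(8,false),(0,true),(8,true)],[(8,false),(1,true),(8,true)],[(8,false),(2,true),(8,true)],[(8,false),(3,true),(8,true)],[(8,false),(4,true),(8,true)],[(8,false),(5,true),(8,true)],[(8,false),(6,true),(8,true)],[(8,false),(7,true),(8,true)],[(8,true)],[(9,true),(8,true)],[(10,true)]],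
  [[(8,true),(0,true),(8,false)],[(8,true),(1,true),(8,false)],[(8,true),(2,true),(8,false)],[(8,true),(3,true),(8,false)],[(8,true),(4,true),(8,false)],[(8,true),(5,true),(8,false)],[(8,true),(6,true),(8,false)],[(8,true),(7,true),(8,false)],[(8,true)],[(9,true),(8,false)],[(10,true)]],
  [[(0,true)],[(1,true)],[(2,true)],[(3,true)],[(4,true)],[(5,true)],[(6,true)],[(7,true)],[(8,true)],[(9,true)],[(10,true)]],
  [[(0,true)],[(1,true)],[(2,true)],[(3,true)],[(4,true)],[(5,true)],[(6,true)],[(7,true)],[(8,true)],[(9,true)],[(10,true)]]]

/-- Conjugating words. -/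
def qC : List RW :=
  [[(1,true),(0,true),(2,true),(1,true),(4,true),(2,true),(5,true),(4,true),(7,true),(5,true),(8,true),(7,true),(10,true),(8,true),(9,true),(10,true)],
   [(2,true),(1,true),(4,true),(2,true),(5,true),(4,true),(7,true),(5,true),(8,true),(7,true),(10,true),(8,true),(9,true),(10,true)],
   [(4,true),(3,true),(5,true),(4,true),(7,true),(5,true),(8,true),(7,true),(10,true),(8,true),(9,true),(10,true)],
   [(5,true),(4,true),(7,true),(5,true),(8,true),(7,true),(10,true),(8,true),(9,true),(10,true)],
   [(7,true),(6,true),(8,true),(7,true),(10,true),(8,true),(9,true),(10,true)],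
   [(8,true),(7,true),(10,true),(8,true),(9,true),(10,true)],
   [],
   [(9,true),(10,true)],
   [(2,false),(2,true),(1,true),(4,true),(2,true),(5,true),(4,true),(7,true),(5,true),(8,true),(7,true),(10,true),(8,true),(9,true),(10,true)]]

/-- The pushes as words. -/
def qW : List RW :=
  [[(1,true),(0,true),(1,false)],
   [(1,true),(9,false)],
   [(3,true),(2,true),(3,false)],
   [(3,true),(9,false)],
   [(5,true),(4,true),(5,false)],
   [(5,true),(9,false)],
   [(6,false)],
   [(7,true),(9,false)]]

/-- Words that conjugate the twist `9` to the others. -/
def cW : List RW :=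
  [[(1,true),(0,true),(2,true),(1,true),(4,true),(2,true),(5,true),(4,true),(7,true),(5,true),(8,true),(7,true),(10,true),(8,true),(9,true),(10,true)],
   [(2,true),(1,true),(4,true),(2,true),(5,true),(4,true),(7,true),(5,true),(8,true),(7,true),(10,true),(8,true),(9,true),(10,true)],
   [(4,true),(2,true),(5,true),(4,true),(7,true),(5,true),(8,true),(7,true),(10,true),(8,true),(9,true),(10,true)],
   [(4,true),(3,true),(5,true),(4,true),(7,true),(5,true),(8,true),(7,true),(10,true),(8,true),(9,true),(10,true)],
   [(5,true),(4,true),(7,true),(5,true),(8,true),(7,true),(10,true),(8,true),(9,true),(10,true)],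
   [(7,true),(5,true),(8,true),(7,true),(10,true),(8,true),(9,true),(10,true)],
   [(7,true),(6,true),(8,true),(7,true),(10,true),(8,true),(9,true),(10,true)],
   [(8,true),(7,true),(10,true),(8,true),(9,true),(10,true)],
   [(10,true),(8,true),(9,true),(10,true)],
   [],
   [(9,true),(10,true)]]

end Pool.Agent.ML
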