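import Pool.Agent.Lib.MP_c86c76_al.Lo.Tab
import Pool.Agent.Lib.MP_c86c76_al.Lo.St

/-!
Twists are tame.
-/

set_option autoImplicit false

namespace Pool.Agent.ML

open Pool.Agent.MB Pool.Agent.MG Pool.Agent.MT
open Pool.Agent.MW (Gam)

/-- The exponent sum. -/
def exs (w : RW) : ℤ := (w.map fun l => cond l.2 (1 : ℤ) (-1)).sum

theorem gw_const {G : Type} [Group G] (x : G) (w : RW) : gw (fun _ => x) w = x ^ exs w := by
  induction w with
  | nil => rw [Raw_nil]; simp [exs]
  | cons l w ih =>
    rw [Raw_cons, ih, exs, exs, List.map_cons, List.sum_cons, zpow_add]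
    rcases l with ⟨i, _ | _⟩ <;> simp

theorem braid_eq {G A : Type} [Group G] [CommGroup A] (q : G →* A) (T : ℕ → G) {i j : ℕ}
    (h : gw T [(i, true), (j, true), (i, true)] = gw T [(j, true), (i, true), (j, true)]) :
    q (T i) = q (T j) := by
  have := congrArg q h
  simp only [Raw_cons, Raw_nil, cond_true, mul_one, map_mul] at this
  rw [mul_left_comm (q (T j)), mul_right_inj, mul_right_inj] at this
  exact this

theorem comm_of {G : Type} [Group G] (T : ℕ → G) {i j : ℕ}
    (h : gw T [(i, true), (j, true)] = gw T [(j, true), (i, true)]) : Commute (T i) (T j) := by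
  simpa only [Raw_cons, Raw_nil, cond_true, mul_one, commute_iff_eq] using h

theorem conj_of {G : Type} [Group G] (T : ℕ → G) (c u : RW) :
    gw T (c ++ u ++ iv c) = gw T c * gw T u * (gw T c)⁻¹ := by
  rw [Raw_append, Raw_append, Raw_iv]

/-- The product of the commutators of the handles `i, …, j - 1`. -/
def cmR (i j : ℕ) : RW := ((List.range' i (j - i)).reverse.map fun t => hd (2 * t)).flatten

/-- The curve around the foot and the first `p` handles. -/
def ecR (h p : ℕ) : RW := [(2 * h + 1, true), (2 * h, false), (2 * h + 1, false)] ++ cmR (h - p) h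

/-- The images of the letters under the twist about this curve. -/
def eR (h p : ℕ) (c : RW) : List RW := (List.range (2 * h + 2)).map fun x =>
  if x = 2 * h + 1 then rd (c ++ [(x, true)])
  else if 2 * (h - p) ≤ x ∧ x < 2 * h then rd (c ++ [(x, true)] ++ iv c) else [(x, true)]

/-- The twist about the curve around the foot and the first `p` handles. -/
def eS (h p : ℕ) : SA := (eR h p (ecR h p), eR h p (iv (ecR h p)))

/-- The rotation of the first `h` handles. -/
def rotS (h : ℕ) : SA :=
  ((List.range (2 * h)).map fun x => if x + 2 < 2 * h then [(x + 2, true)]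
    else rd (cmR 1 h ++ [(x + 2 - 2 * h, true)] ++ iv (cmR 1 h)),
  (List.range (2 * h)).map fun x => if 2 ≤ x then [(x - 2, true)]
    else rd (iv (cmR 0 (h - 1)) ++ [(x + 2 * h - 2, true)] ++ cmR 0 (h - 1)))

/-- The flip of the two boundary circles. -/
def flS (h : ℕ) : SA :=
  ((List.range (2 * h + 2)).map fun x => if x = 2 * h then rd (rW (h + 1) ++ [(x, false)])
    else if x = 2 * h + 1 then rd ([(x, false)] ++ rW h ++ [(2 * h, false)])
    else [(2 * h + 1, false), (x, true), (2 * h + 1, true)],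
  (List.range (2 * h + 2)).map fun x => if x = 2 * h then ecR h h
    else if x = 2 * h + 1 then rd (iv (ecR h h) ++ [(x, false)] ++ rW h)
    else rd (iv (ecR h h) ++ [(2 * h + 1, false)] ++ rW h ++ [(x, true)] ++
      iv (iv (ecR h h) ++ [(2 * h + 1, false)] ++ rW h)))

theorem fr_aut {n : ℕ} {p p' : SA} (h : okS n p = true) (h' : okS (n + 2) p' = true)
    (e : ((List.range (n + 2)).all fun x => eqF (sub p'.1 [(x, true)])
      (if x < 2 then [(x, true)] else sh 2 (sub p.1 [(x - 2, true)]))) = true) :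
    frH n (aut n p) = aut (n + 2) p' := by
  have k : ∀ i, (ka n).symm (inc n (io n i)) = io (n + 2) (i + 2) := fun i => by
    by_cases hi : i < n
    · exact (ka n).symm_apply_eq.2 ((inc_io hi).trans (ka_io hi).symm)
    · rw [Lick_big (not_lt.1 hi), Lick_big (by omega), map_one, map_one]
  refine io_ext fun x => ?_
  by_cases hx : x < n + 2
  swap
  · rw [Lick_big (not_lt.1 hx), map_one, map_one]
  have e1 := Raw_eqF (io (n + 2)) _ _ (List.all_eq_true.1 e x (List.mem_range.2 hx))
  have e2 := (Raw_aut (n + 2) p' [(x, true)] h').1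
  rw [ev, ev, Raw_pos, e1] at e2
  rw [e2, frH_apply]
  refine (ka n).symm_apply_eq.2 ?_
  change exA n _ (ka n _) = _
  split_ifs with h2
  · rw [Raw_pos, ka_low h2, exA_new _ (by omega)]
  · obtain ⟨y, rfl⟩ : ∃ y, x = y + 2 := ⟨x - 2, by omega⟩
    have e3 := (Raw_aut n p [(y, true)] h).1
    rw [ev, Raw_pos] at e3
    rw [ka_io (by omega), ← inc_io (by omega), exA_inc, e3, gw_sh, Nat.add_sub_cancel,
      ← funext k]
    refine ((ka n).symm_apply_eq.1 ?_)
    exact Raw_map _ _ ((ka n).symm.toMonoidHom.comp (inc n)) _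

/-- Conjugation by an automorphism that keeps the pair of boundary circles. -/
def cjG {h : ℕ} (θ : MulAut (FN (2 * (h + 1)))) (h1 : θ ∈ St (h + 1))
    (h2 : θ ((io _ (2 * (h + 1) - 2))⁻¹ * ev _ (rW (h + 1))) = io _ (2 * (h + 1) - 2)) :
    Gam h →* Gam h :=
  rs (MulAut.conj θ).toMonoidHom _ _ fun φ e =>
    ⟨(St _).mul_mem ((St _).mul_mem h1 e.1) ((St _).inv_mem h1), by
    have a : φ _ = _ := e.1
    have b : φ _ = _ := e.2
    change θ (φ (θ.symm _)) = _
    rw [θ.symm_apply_eq.2 h2.symm, map_mul, map_inv, a, b, h2]⟩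

/-- The table of genus two. -/
def tG2 : Tab (2 * (2 + 1)) (Gam 2) := tabG 2 (twL 7 ++ [eS 2 2])
  (by decide +kernel) (by decide +kernel) (by decide +kernel)

theorem tG2_std : stdB (2 * (2 + 1)) tG2.L 7 = true := by decide +kernel

theorem pow_ten (φ : Gam 2) : φ ^ 10 ∈ commutator (Gam 2) := by
  let q : Gam 2 →* Abelianization (Gam 2) := Abelianization.of
  have b : ∀ {i j : ℕ}, same _ tG2.L [(i, true), (j, true), (i, true)]
      [(j, true), (i, true), (j, true)] = true → q (tG2.t i) = q (tG2.t j) :=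
    fun h => braid_eq q _ (tG2.same h)
  have e1 := b (i := 1) (j := 0) (by decide +kernel)
  have e2 := (b (i := 2) (j := 1) (by decide +kernel)).trans e1
  have e4 := (b (i := 4) (j := 2) (by decide +kernel)).trans e2
  have e3 := (b (i := 3) (j := 4) (by decide +kernel)).trans e4
  have e5 := (b (i := 5) (j := 4) (by decide +kernel)).trans e4
  have k : ∀ w, bd 6 w = true → q (gw tG2.t w) = q (tG2.t 0) ^ exs w := fun w hw => by
    rw [Raw_map, ← gw_const]
    refine Raw_congr _ _ 6 w (fun i hi => ?_) hw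
    obtain rfl | rfl | rfl | rfl | rfl | rfl : i = 0 ∨ i = 1 ∨ i = 2 ∨ i = 3 ∨ i = 4 ∨ i = 5 := by
      omega
    exacts [rfl, e1, e2, e3, e4, e5]
  have r1 := k [(0,true),(1,true),(2,true),(0,true),(1,true),(2,true),(0,true),(1,true),(2,true),
    (0,true),(1,true),(2,true),(3,false),(4,true),(2,true),(1,true),(0,true),(0,true),(1,true),
    (2,true),(4,true),(3,false),(4,false),(2,false),(1,false),(0,false),(0,false),(1,false),
    (2,false),(4,false)] (by decide)
  rw [tG2.same (v := []) (by decide +kernel), Raw_nil, map_one] at r1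
  have r2 := k [(1,false),(2,false),(4,false),(5,false),(0,true),(1,true),(2,true),(4,true),
    (3,false),(4,false),(2,false),(1,false),(0,false),(5,true),(4,true),(2,true),(1,true),(3,true),
    (5,true),(2,true),(4,true),(3,true),(5,true),(2,true),(4,true),(3,true),(5,true),(2,true),
    (4,true),(0,false)] (by decide)
  rw [tG2.same (v := [(6, true)]) (by decide +kernel), Raw_pos] at r2
  have hJ := gam_ind ((Subgroup.zpowers (q (tG2.t 0))).comap q) fun i hi ψ e => by
    rw [show ψ = tG2.t i from Subtype.ext (e.eq (stdB_is tG2_std hi))]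
    by_cases h6 : i = 6
    · exact h6 ▸ ⟨_, r2.symm⟩
    · have := k [(i, true)] (by simp [bd, Nat.blt_eq]; omega)
      rw [Raw_pos] at this
      exact ⟨_, this.symm⟩
  obtain ⟨m, hm⟩ : φ ∈ (Subgroup.zpowers (q (tG2.t 0))).comap q := hJ ▸ Subgroup.mem_top φ
  rw [← Abelianization.ker_of]
  change q (φ ^ 10) = 1
  rw [map_pow, ← hm, ← zpow_natCast, ← zpow_mul, mul_comm m, zpow_mul]
  exact (congrArg (· ^ m) r1.symm).trans (one_zpow m)

theorem good2 (hB : BasSt) (hC : CenSt) {i : ℕ}
    (h : ((List.range 7).all fun k => same (2 * (2 + 1)) tG2.L [(i, true), (k, true)]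
      [(k, true), (i, true)]) = true) : Good (tG2.t i) := by
  have hJ := gam_ind (Subgroup.centralizer {tG2.t i}) fun k hk ψ e => by
    rw [show ψ = tG2.t k from Subtype.ext (e.eq (stdB_is tG2_std hk)),
      Subgroup.mem_centralizer_singleton_iff]
    exact (comm_of _ (tG2.same (List.all_eq_true.1 h k (List.mem_range.2 hk)))).symm
  refine (hB _).2.2.2.2.2.2.1 _ 10 (by omega) (hC _ _ (fun g => Commute.pow_left ?_ _) (pow_ten _))
  exact (Subgroup.mem_centralizer_singleton_iff.1 (hJ ▸ Subgroup.mem_top g)).symm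

/-- The table of genus three: ten twists, the separating twists, the rotation. -/
def tG3 : Tab (2 * (3 + 1)) (Gam 3) := tabG 3 (twL 10 ++ [eS 3 1, eS 3 2, eS 3 3])
  (by decide +kernel) (by decide +kernel) (by decide +kernel)

theorem tG3_std : stdB (2 * (3 + 1)) tG3.L 10 = true := by decide +kernel

/-- The table with the flip. -/
def tS4 : Tab (2 * 4) (St 4) := tabS 4 (tG3.L ++ [flS 3, rotS 3])
  (by decide +kernel) (by decide +kernel)

theorem good_conj (hB : BasSt) {G : Type} [Group G] (T : ℕ → G) {i j : ℕ} (c : RW)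
    (h : gw T [(j, true)] = gw T (c ++ [(i, true)] ++ iv c)) (e : Good (T i)) : Good (T j) := by
  rw [conj_of, Raw_pos, Raw_pos] at h
  exact h ▸ (hB G).2.2.1 _ _ e

theorem good3 (hB : BasSt) (hC : CenSt) (i : ℕ) : Good (tG3.t i) := by
  have a2 := good2 hB hC (i := 6) (by decide +kernel)
  have e2 := good2 hB hC (i := 7) (by decide +kernel)
  have g6 : Good (tG3.t 6) := by
    have := (hB _).2.1 _ ((exG 3).comp (inS 2)) _ a2
    rwa [show ((exG 3).comp (inS 2)) (tG2.t 6) = tG3.t 6 from Subtype.ext
      ((stdB_is tG2_std (by omega)).ex.eq (stdB_is tG3_std (by omega)))] at this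
  have g9 : Good (tG3.t 9) := by
    have := (hB _).2.1 _ (frG 2) _ a2
    rwa [show frG 2 (tG2.t 6) = tG3.t 9 from Subtype.ext
      ((stdB_is tG2_std (by omega)).fr.eq (stdB_is tG3_std (by omega)))] at this
  have g11 : Good (tG3.t 11) := by
    have := (hB _).2.1 _ (frG 2) _ e2
    rwa [show frG 2 (tG2.t 7) = tG3.t 11 from Subtype.ext
      (fr_aut (by decide +kernel) (by decide +kernel) (by decide +kernel))] at this
  have br : ∀ {i j : ℕ}, same _ tG3.L [(j, true)]
      ([(i, true), (j, true)] ++ [(i, true)] ++ iv [(i, true), (j, true)]) = true →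
      Good (tG3.t i) → Good (tG3.t j) := fun h => good_conj hB _ _ (tG3.same h)
  have g7 := br (j := 7) (by decide +kernel) g6
  have g8 := br (j := 8) (by decide +kernel) g7
  have g5 := br (j := 5) (by decide +kernel) g7
  have g4 := br (j := 4) (by decide +kernel) g5
  have g3 := br (j := 3) (by decide +kernel) g4
  have g2 := br (j := 2) (by decide +kernel) g4
  have g1 := br (j := 1) (by decide +kernel) g2
  have g0 := br (j := 0) (by decide +kernel) g1
  let c : RW := [(13, true), (14, true), (14, true)]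
  let θ : St 4 := gw tS4.t c
  have tc : (θ : MulAut (FN (2 * 4))) = gw (tb _ tS4.L) c := Raw_map _ _ (St 4).subtype c
  have h2 : θ.1 ((io _ (2 * (3 + 1) - 2))⁻¹ * ev _ (rW (3 + 1))) = io _ (2 * (3 + 1) - 2) := by
    have := Raw_act _ tS4.L tS4.ok c ([(6, false)] ++ rW 4)
    rw [ev, ev, Raw_eqF _ (act _ _ _) [(6, true)] (by decide +kernel), Raw_append, Raw_pos,
      Raw_neg] at this
    exact tc ▸ this
  have fl : ∀ {i j : ℕ} (s : Bool), i < 13 → j < 13 →
      same (2 * 4) tS4.L (c ++ [(i, true)] ++ iv c) [(j, s)] = true → cjG θ.1 θ.2 h2 (tG3.t i) = cond s (tG3.t j) (tG3.t j)⁻¹ := by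
    intro i j s hi hj h
    have := same_ok tS4.ok h
    have l : ∀ i < 13, tb (2 * 4) tS4.L i = (tG3.t i).1 := fun i hi =>
      congrArg (aut _) (List.getD_append _ _ _ _ hi)
    rw [conj_of, Raw_pos, ← tc, l i hi, Raw_cons, Raw_nil, mul_one, l j hj] at this
    cases s <;> exact Subtype.ext this
  have g10 : Good (tG3.t 10) := by
    have := (hB _).2.1 _ (cjG θ.1 θ.2 h2) _ g11
    rwa [fl (j := 10) true (by omega) (by omega) (by decide +kernel)] at this
  have g12 : Good (tG3.t 12) := by
    have := (hB _).2.2.2.1 _ ((hB _).2.1 _ (cjG θ.1 θ.2 h2) _ g9)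
    rwa [fl (j := 12) false (by omega) (by omega) (by decide +kernel), cond_false, inv_inv] at this
  by_cases hi : i < 13
  · interval_cases i <;> assumption
  · have : tG3.t i = gw tG3.t [] := Subtype.ext (io_ext fun x => by
      have := (Raw_aut (2 * (3 + 1)) ([], []) [(x, true)] (Raw_ok_nil _)).1
      rw [Raw_sub_big _ _ (Nat.zero_le _), ev, Raw_pos] at this
      rw [Raw_nil]
      exact (congrArg (fun p => aut _ p (io _ x))
        (List.getD_eq_default _ _ (not_lt.1 hi))).trans this)
    rw [this, Raw_nil]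
    exact (hB _).1

end Pool.Agent.ML
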