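import Pool.Agent.Lib.MP_c86c76_al.Lo.Good
import Pool.Agent.Lib.MP_c86c76_al.Lo.Dat

/-!
The local lemma.
-/

set_option autoImplicit false

namespace Pool.Agent.ML

open Pool.Agent.MB Pool.Agent.MG Pool.Agent.MT
open Pool.Agent.MW (Gam)

/-- The pushes of the foot. -/
def PP (h : ℕ) : Subgroup (Gam h) := Subgroup.normalClosure
  {p | ∃ A C, IsA (2 * (h + 1)) (h - 1) A ∧ IsC (2 * (h + 1)) (h - 1) C ∧ p.1 = C * A⁻¹}

instance (h : ℕ) : (PP h).Normal := Subgroup.normalClosure_normal

/-- The table of genus four with two boundary circles. -/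
def tG4 : Tab (2 * (4 + 1)) (Gam 4) := tabG 4 (twL 13)
  (by decide +kernel) (by decide +kernel) (by decide +kernel)

theorem tG4_std : stdB (2 * (4 + 1)) tG4.L 13 = true := by decide +kernel

/-- The table of genus four with one boundary circle. -/
def tT4 : Tab (2 * 4) (St 4) := tabS 4 (twL 11) (by decide +kernel) (by decide +kernel)

theorem tT4_std : stdB (2 * 4) tT4.L 11 = true := by decide +kernel

/-- The table of genus five with one boundary circle. -/
def tS5 : Tab (2 * 5) (St 5) := tabS 5 (twL 14 ++ [rotS 5]) (by decide +kernel) (by decide +kernel)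

theorem tS5_std : stdB (2 * 5) tS5.L 14 = true := by decide +kernel

/-- The table of genus five with two boundary circles. -/
def tG5 : Tab (2 * (5 + 1)) (Gam 5) := tabG 5 (twL 16 ++ qL)
  (by decide +kernel) (by decide +kernel) (by decide +kernel)

theorem tG5_std : stdB (2 * (5 + 1)) tG5.L 16 = true := by decide +kernel

/-- A conjugate of the basic push. -/
def puW (c : RW) : RW := c ++ [(11, true), (9, false)] ++ iv c

theorem pu_mem (c : RW) : gw tG4.t (puW c) ∈ PP 4 := by
  rw [puW, conj_of]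
  refine Subgroup.Normal.conj_mem inferInstance _ (Subgroup.subset_normalClosure ?_) _
  rcases stdB_is tG4_std (k := 9) (by omega) with ⟨-, -, a⟩ | ⟨a, -⟩ | ⟨a, -⟩ <;> try omega
  rcases stdB_is tG4_std (k := 11) (by omega) with ⟨b, -⟩ | ⟨b, -⟩ | ⟨-, -, b⟩ <;> try omega
  refine ⟨_, _, a, b, ?_⟩
  rw [Raw_cons, Raw_neg]
  rfl

theorem in4 (w : RW) (h : bd 13 w = true) : inS 4 (gw tG4.t w) = gw tS5.t w := by
  rw [Raw_map]
  exact Raw_congr _ _ 13 w (fun i hi => Subtype.ext
    ((stdB_is tG4_std hi).eq (stdB_is tS5_std (by omega)))) h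

theorem fr4 (w : RW) (h : bd 13 w = true) : frG 4 (gw tG4.t w) = gw tG5.t (sh 3 w) := by
  rw [Raw_map, gw_sh]
  exact Raw_congr _ _ 13 w (fun i hi => Subtype.ext
    ((stdB_is tG4_std hi).fr.eq (stdB_is tG5_std (by omega)))) h

theorem gen1 : Subgroup.closure ({tS5.t 12, tS5.t 13} ∪ inS 4 '' PP 4) = ⊤ := by
  set Γ := Subgroup.closure ({tS5.t 12, tS5.t 13} ∪ inS 4 '' PP 4 : Set (St 5))
  have hB : tS5.t 13 ∈ Γ := Subgroup.subset_closure (Or.inl (Or.inr rfl))
  have hf : ∀ c, bd 13 (puW c) = true → gw tS5.t (puW c) ∈ Γ := fun c h =>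
    Subgroup.subset_closure (Or.inr ⟨_, pu_mem c, in4 _ h⟩)
  have key : ((List.range 11).all fun k => bd 13 (puW (cW.getD k [])) &&
      same (2 * 5) tS5.L [(k, true)] (iv (puW (cW.getD k [])) ++ [(13, true)] ++ puW (cW.getD k []) ++ [(13, true)] ++
        iv (puW (cW.getD k [])) ++ [(13, false)])) = true := by decide +kernel
  have lo : ∀ k < 11, tS5.t k ∈ Γ := fun k hk => by
    obtain ⟨a, b⟩ := Bool.and_eq_true_iff.1 (List.all_eq_true.1 key k (List.mem_range.2 hk))
    have e := tS5.same b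
    simp only [Raw_append, Raw_iv, Raw_pos, Raw_neg] at e
    have f := hf _ a
    exact e ▸ mul_mem (mul_mem (mul_mem (mul_mem (mul_mem (inv_mem f) hB) f) hB) (inv_mem f))
      (inv_mem hB)
  refine st_ind Γ fun k hk φ e => ?_
  rw [show φ = tS5.t k from Subtype.ext (e.eq (stdB_is tS5_std hk))]
  by_cases h : k < 11
  · exact lo k h
  obtain rfl | rfl | rfl : k = 11 ∨ k = 12 ∨ k = 13 := by omega
  · have e := tS5.same (u := [(11, true)]) (v := puW [] ++ [(9, true)]) (by decide +kernel)
    rw [Raw_append, Raw_pos, Raw_pos] at e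
    exact e ▸ mul_mem (hf [] (by decide)) (lo 9 (by omega))
  · exact Subgroup.subset_closure (Or.inl (Or.inl rfl))
  · exact hB

theorem comm1 {c : ℕ} (h : ((List.range 11).all fun k => same (2 * 5) tS5.L [(k, true), (c, true)]
    [(c, true), (k, true)]) = true) (y : St 4) : Commute (tS5.t c) (exS 4 y) := by
  have hJ := st_ind ((Subgroup.centralizer {tS5.t c}).comap (exS 4)) fun k hk φ e => by
    rw [Subgroup.mem_comap, show exS 4 φ = tS5.t k from
      Subtype.ext (e.ex.eq (stdB_is tS5_std (by omega))), Subgroup.mem_centralizer_singleton_iff]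
    exact comm_of _ (tS5.same (List.all_eq_true.1 h k (List.mem_range.2 hk)))
  have : y ∈ (Subgroup.centralizer {tS5.t c}).comap (exS 4) := hJ ▸ Subgroup.mem_top y
  exact (Subgroup.mem_centralizer_singleton_iff.1 this).symm

theorem good5 (hB : BasSt) (hC : CenSt) {k : ℕ} (hk : k < 14) : Good (tS5.t k) := by
  have lo : ∀ k < 10, Good (tS5.t k) := fun k hk => by
    have := (hB _).2.1 _ ((exS 4).comp (inS 3)) _ (good3 hB hC k)
    rwa [show ((exS 4).comp (inS 3)) (tG3.t k) = tS5.t k from Subtype.ext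
      ((stdB_is tG3_std hk).ex.eq (stdB_is tS5_std (by omega)))] at this
  have br : ∀ {i j : ℕ}, same (2 * 5) tS5.L [(j, true)]
      ([(i, true), (j, true)] ++ [(i, true)] ++ iv [(i, true), (j, true)]) = true →
      Good (tS5.t i) → Good (tS5.t j) := fun h => good_conj hB _ _ (tS5.same h)
  have g10 := br (j := 10) (by decide +kernel) (lo 8 (by omega))
  have g11 := br (j := 11) (by decide +kernel) g10
  have g13 := br (j := 13) (by decide +kernel) g11
  have g12 := br (j := 12) (by decide +kernel) g13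
  by_cases h : k < 10
  · exact lo k h
  obtain rfl | rfl | rfl | rfl : k = 10 ∨ k = 11 ∨ k = 12 ∨ k = 13 := by omega
  all_goals assumption

theorem act_one_of (hB : BasSt) {G : Type} [Group G] {H : Type} [NormedAddCommGroup H]
    [InnerProductSpace ℂ H] [CompleteSpace H] (β : G →* (H ≃ᵃⁱ[ℂ] H)) {u : G} (h : Good u)
    (e : ∀ v, lin β u v = v) : β u = 1 :=
  AffineIsometryEquiv.ext (((hB G).2.2.2.2.2.2.2 H β u h).2 e)

theorem locA_one {K : Type} [Group K] {H : Type} [NormedAddCommGroup H]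
    [InnerProductSpace ℂ H] (β : K →* (H ≃ᵃⁱ[ℂ] H)) (h : ∀ x, β x = 1) : LocA β := by
  intro S U _ ε hε
  refine ⟨0, fun s _ => by simp [h, hε.le], fun u _ n0 => ?_⟩
  simp [h, hε.le]

theorem loc1G (hB : BasSt) (hC : CenSt) (hS : StepSt) (hW : WR (PP 4)) {G K : Type} [Group G]
    [Group K] (f : St 5 →* G) (k : K →* G) (h : ∀ x, ∃ y, k x = f (exS 4 y)) : Loc k := by
  intro H _ _ _ α
  have hk : ∀ x, k x ∈ f.range := fun x => (h x).elim fun _ e => ⟨_, e.symm⟩
  refine hS K (Gam 4) f.range (k.codRestrict _ hk) (f.rangeRestrict.comp (inS 4)) (PP 4) ⊤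
    (f.rangeRestrict '' {tS5.t 12, tS5.t 13}) inferInstance inferInstance hW (fun x => ?_) ?_ ?_ ?_
    H (α.comp f.range.subtype)
  · obtain ⟨y, e⟩ := h x
    exact ⟨exG 4 y, Subtype.ext e.symm⟩
  · rintro _ ⟨c, hc, rfl⟩ x
    obtain ⟨y, e⟩ := h x
    rw [show k.codRestrict _ hk x = f.rangeRestrict (exS 4 y) from Subtype.ext e]
    rcases hc with rfl | rfl
    · exact (comm1 (by decide +kernel) y).map _
    · exact (comm1 (by decide +kernel) y).map _
  · rw [MonoidHom.coe_comp, Set.image_comp, ← Set.image_union, ← MonoidHom.map_closure, gen1,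
      ← MonoidHom.range_eq_map, MonoidHom.range_eq_top_of_surjective _ f.rangeRestrict_surjective]
  · intro H' _ _ _ β e
    have hJ := st_ind (β.comp f.rangeRestrict).ker fun i hi φ t => by
      rw [show φ = tS5.t i from Subtype.ext (t.eq (stdB_is tS5_std hi))]
      exact act_one_of hB _ (good5 hB hC hi) (e _ trivial)
    refine locA_one _ fun x => ?_
    obtain ⟨y, e⟩ := f.rangeRestrict_surjective (k.codRestrict _ hk x)
    have : y ∈ (β.comp f.rangeRestrict).ker := hJ ▸ Subgroup.mem_top y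
    exact (congrArg β e).symm.trans this

/-- The generators of the group of pushes. -/
def qS : List RW := (List.range 10).map (fun i => [(17 + i, true)]) ++ [[(15, true)]]

/-- The generators of the group of pushes as elements. -/
noncomputable def qG (i : ℕ) : Gam 5 := gw tG5.t (qS.getD i [(i, true)])

/-- The group of pushes. -/
noncomputable def QQ : Subgroup (Gam 5) := Subgroup.closure (qG '' {i | i < 11})

theorem qq_mem {w : RW} (h : bd 11 w = true) : gw tG5.t (sub qS w) ∈ QQ := by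
  rw [Raw_sub]
  exact Raw_mem _ _ 11 w (fun i hi => Subgroup.subset_closure ⟨i, hi, rfl⟩) h

theorem qq_tab : ((List.range 32).all fun t => (List.range 11).all fun k =>
    bd 11 ((qT.getD t []).getD k []) && same (2 * (5 + 1)) tG5.L
      ([(t / 2, Nat.beq (t % 2) 0)] ++ qS.getD k [(k, true)] ++ iv [(t / 2, Nat.beq (t % 2) 0)])
      (sub qS ((qT.getD t []).getD k []))) = true := by decide +kernel

theorem qq_normal : QQ.Normal := by
  have c : ∀ t < 32, ∀ q ∈ QQ, gw tG5.t [(t / 2, Nat.beq (t % 2) 0)] * q *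
      (gw tG5.t [(t / 2, Nat.beq (t % 2) 0)])⁻¹ ∈ QQ := fun t ht q hq => by
    refine ((Subgroup.closure_le (QQ.comap (MulAut.conj _).toMonoidHom)).2 ?_) hq
    rintro _ ⟨k, hk, rfl⟩
    obtain ⟨a, b⟩ := Bool.and_eq_true_iff.1 (List.all_eq_true.1
      (List.all_eq_true.1 qq_tab t (List.mem_range.2 ht)) k (List.mem_range.2 hk))
    have := qq_mem a
    rwa [← tG5.same b, conj_of] at this
  refine Subgroup.normalizer_eq_top_iff.1 (gam_ind _ fun k hk φ e => ?_)
  rw [show φ = tG5.t k from Subtype.ext (e.eq (stdB_is tG5_std hk)), Subgroup.mem_normalizer_iff]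
  have c1 := c (2 * k) (by omega)
  have c2 := c (2 * k + 1) (by omega)
  rw [show 2 * k / 2 = k by omega, show 2 * k % 2 = 0 by omega] at c1
  rw [show (2 * k + 1) / 2 = k by omega, show (2 * k + 1) % 2 = 1 by omega] at c2
  refine fun q => ⟨fun h => by simpa [Raw_pos] using c1 q h, fun h => ?_⟩
  simpa [show Nat.beq 1 0 = false from rfl, Raw_neg, mul_assoc] using c2 _ h

/-- The pushes that come from the window, and the boundary twist. -/
def fS : List RW := qC.map (fun c => sh 3 (puW c)) ++ [[(15, true)]]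

theorem qq_le : QQ ≤ Subgroup.closure ({tG5.t 16} ∪ frG 4 '' PP 4) := by
  set Γ := Subgroup.closure ({tG5.t 16} ∪ frG 4 '' PP 4 : Set (Gam 5))
  have k0 : ((List.range 9).all fun i => bd 13 (puW (qC.getD i [])) &&
    eqF (fS.getD i [(i, true)]) (sh 3 (puW (qC.getD i [])))) = true := by decide +kernel
  have f9 : ∀ i < 9, gw tG5.t (fS.getD i [(i, true)]) ∈ Γ := fun i hi => by
    obtain ⟨a, b⟩ := Bool.and_eq_true_iff.1 (List.all_eq_true.1 k0 i (List.mem_range.2 hi))
    rw [Raw_eqF _ _ _ b]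
    exact Subgroup.subset_closure (Or.inr ⟨_, pu_mem _, fr4 _ a⟩)
  have a5 : gw tG5.t [(15, true)] ∈ Γ := by
    rw [tG5.same (v := sub fS [(8, false), (2, true), (1, true), (0, false)]) (by decide +kernel),
      Raw_sub]
    exact Raw_mem _ _ 9 _ f9 (by decide)
  have f10 : ∀ i < 10, gw tG5.t (fS.getD i [(i, true)]) ∈ Γ := fun i hi => by
    by_cases h : i < 9
    · exact f9 i h
    · rw [show i = 9 by omega]
      exact a5
  have k1 : ((List.range 8).all fun i => bd 10 (qW.getD i []) &&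
    same (2 * (5 + 1)) tG5.L [(19 + i, true)] (sub fS (qW.getD i []))) = true := by decide +kernel
  have p8 : ∀ i < 8, gw tG5.t [(19 + i, true)] ∈ Γ := fun i hi => by
    obtain ⟨a, b⟩ := Bool.and_eq_true_iff.1 (List.all_eq_true.1 k1 i (List.mem_range.2 hi))
    rw [tG5.same b, Raw_sub]
    exact Raw_mem _ _ 10 _ f10 a
  have sg : gw tG5.t [(16, true)] ∈ Γ := by
    rw [Raw_pos]
    exact Subgroup.subset_closure (Or.inl rfl)
  refine (Subgroup.closure_le _).2 ?_
  rintro _ ⟨i, hi, rfl⟩
  change i < 11 at hi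
  interval_cases i
  · have := mul_mem (mul_mem sg (p8 0 (by omega))) (inv_mem sg)
    rwa [← conj_of, tG5.same (v := [(17, true)]) (by decide +kernel)] at this
  · have := mul_mem (mul_mem sg (p8 1 (by omega))) (inv_mem sg)
    rwa [← conj_of, tG5.same (v := [(18, true)]) (by decide +kernel)] at this
  exacts [p8 0 (by omega), p8 1 (by omega), p8 2 (by omega), p8 3 (by omega), p8 4 (by omega),
    p8 5 (by omega), p8 6 (by omega), p8 7 (by omega), a5]

/-- Two new handles at the outer boundary. -/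
def k2 : Gam 3 →* Gam 5 := (frG 4).comp (frG 3)

theorem k2_t {k : ℕ} (hk : k < 10) : k2 (tG3.t k) = tG5.t (k + 6) :=
  Subtype.ext ((stdB_is tG3_std hk).fr.fr.eq (stdB_is tG5_std (by omega)))

theorem loc2G (hB : BasSt) (hC : CenSt) (hS : StepSt) (hW : WR (PP 4)) {G K : Type} [Group G]
    [Group K] (f : Gam 5 →* G) (k : K →* G) (h : ∀ x, ∃ y, k x = f (k2 y)) : Loc k := by
  intro H _ _ _ α
  have hk : ∀ x, k x ∈ f.range := fun x => (h x).elim fun _ e => ⟨_, e.symm⟩
  refine hS K (Gam 4) f.range (k.codRestrict _ hk) (f.rangeRestrict.comp (frG 4)) (PP 4)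
    (QQ.map f.rangeRestrict) (f.rangeRestrict '' {tG5.t 16}) inferInstance
    (qq_normal.map _ f.rangeRestrict_surjective) hW (fun x => ?_) ?_ ?_ ?_
    H (α.comp f.range.subtype)
  · obtain ⟨y, e⟩ := h x
    exact ⟨frG 3 y, Subtype.ext e.symm⟩
  · rintro _ ⟨_, rfl, rfl⟩ x
    obtain ⟨y, e⟩ := h x
    rw [show k.codRestrict _ hk x = f.rangeRestrict (k2 y) from Subtype.ext e]
    have h : ((List.range 10).all fun k => same (2 * (5 + 1)) tG5.L [(k + 6, true), (16, true)]
      [(16, true), (k + 6, true)]) = true := by decide +kernel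
    have hJ := gam_ind ((Subgroup.centralizer {tG5.t 16}).comap k2) fun k hk φ e => by
      rw [Subgroup.mem_comap, show φ = tG3.t k from Subtype.ext (e.eq (stdB_is tG3_std hk)),
        k2_t hk, Subgroup.mem_centralizer_singleton_iff]
      exact comm_of _ (tG5.same (List.all_eq_true.1 h k (List.mem_range.2 hk)))
    have : y ∈ (Subgroup.centralizer {tG5.t 16}).comap k2 := hJ ▸ Subgroup.mem_top y
    exact Commute.map (Subgroup.mem_centralizer_singleton_iff.1 this).symm _
  · rw [MonoidHom.coe_comp, Set.image_comp, ← Set.image_union, ← MonoidHom.map_closure]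
    exact Subgroup.map_mono qq_le
  intro H _ _ _ β0 e0
  let β := β0.comp f.rangeRestrict
  have e : ∀ n ∈ QQ, ∀ v, lin β n v = v := fun n hn => e0 _ ⟨n, hn, rfl⟩
  have g : ∀ k < 10, Good (tG5.t (k + 6)) := fun k hk =>
    k2_t hk ▸ (hB _).2.1 _ k2 _ (good3 hB hC k)
  have e15 : β (tG5.t 15) = 1 := act_one_of hB β (g 9 (by omega)) (e _ (by
    have := qq_mem (w := [(10, true)]) (by decide)
    rwa [tG5.same (v := [(15, true)]) (by decide +kernel), Raw_pos] at this))
  have e14 : β (tG5.t 14 * (tG5.t 12)⁻¹) = 1 := act_one_of hB β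
    ((hB _).2.2.2.2.1 _ _ (comm_of _ (tG5.same (by decide +kernel))).inv_right (g 8 (by omega))
      ((hB _).2.2.2.1 _ (g 6 (by omega)))) (e _ (by
    have := qq_mem (w := [(8, false)]) (by decide)
    rwa [tG5.same (v := [(14, true), (12, false)]) (by decide +kernel), Raw_cons, Raw_neg] at this))
  let f1 : St 5 →* (H ≃ᵃⁱ[ℂ] H) :=
    (β.comp (exG 5)).comp (MulAut.conj (tS5.t 14)).toMonoidHom
  have lo : ∀ k < 8, β (tG5.t (k + 6)) ∈ (f1.comp (exS 4)).range := fun k hk => by
    have h : ((List.range 8).all fun k => same (2 * 5) tS5.L ([(14, true)] ++ [(k + 3, true)] ++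
      iv [(14, true)]) [(k + 6, true)]) = true := by decide +kernel
    have := tS5.same (List.all_eq_true.1 h k (List.mem_range.2 hk))
    rw [conj_of, Raw_pos, Raw_pos, Raw_pos] at this
    refine ⟨tT4.t (k + 3), congrArg β ?_⟩
    change exG 5 (tS5.t 14 * exS 4 (tT4.t (k + 3)) * (tS5.t 14)⁻¹) = _
    rw [show exS 4 (tT4.t (k + 3)) = tS5.t (k + 3) from Subtype.ext
      ((stdB_is tT4_std (by omega)).ex.eq (stdB_is tS5_std (by omega))), this]
    exact Subtype.ext ((stdB_is tS5_std (by omega)).ex.eq (stdB_is tG5_std (by omega)))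
  have hJ := gam_ind ((f1.comp (exS 4)).range.comap (β.comp k2)) fun k hk φ t => by
    rw [Subgroup.mem_comap, show φ = tG3.t k from Subtype.ext (t.eq (stdB_is tG3_std hk)),
      MonoidHom.comp_apply, k2_t hk]
    by_cases h : k < 8
    · exact lo k h
    obtain rfl | rfl : k = 8 ∨ k = 9 := by omega
    · rw [map_mul, map_inv, mul_inv_eq_one] at e14
      exact e14 ▸ lo 6 (by omega)
    · exact e15 ▸ one_mem _
  refine loc1G hB hC hS hW f1 (β0.comp (k.codRestrict _ hk)) (fun x => ?_) H (MonoidHom.id _)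
  obtain ⟨y, e1⟩ := h x
  obtain ⟨z, e2⟩ : y ∈ (f1.comp (exS 4)).range.comap (β.comp k2) := hJ ▸ Subgroup.mem_top y
  exact ⟨z, (congrArg β0 (Subtype.ext e1)).trans e2.symm⟩

end Pool.Agent.ML
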