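import Pool.Agent.Lib.MP_c86c76_al.G.All
import Pool.Agent.Lib.MP_c86c76_al.Tg.St

/-!
Tables of twists and words in them.
-/

set_option autoImplicit false

namespace Pool.Agent.ML

open Pool.Agent.MB Pool.Agent.MG Pool.Agent.MT
open Pool.Agent.MW (Gam)

/-- The twist number `k`: `A i, B i, C i` have the numbers `3 i, 3 i + 1, 3 i + 2`. -/
def IsT (n k : ℕ) (φ : MulAut (FN n)) : Prop :=
  (k % 3 = 0 ∧ 2 * (k / 3) + 2 ≤ n ∧ IsA n (k / 3) φ) ∨
  (k % 3 = 1 ∧ 2 * (k / 3) + 2 ≤ n ∧ IsB n (k / 3) φ) ∨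
  (k % 3 = 2 ∧ 2 * (k / 3) + 4 ≤ n ∧ IsC n (k / 3) φ)

theorem IsT.eq {n k : ℕ} {φ ψ : MulAut (FN n)} (h : IsT n k φ) (h' : IsT n k ψ) : φ = ψ := by
  rcases h with ⟨a, -, h⟩ | ⟨a, -, h⟩ | ⟨a, -, h⟩ <;>
    rcases h' with ⟨b, -, h'⟩ | ⟨b, -, h'⟩ | ⟨b, -, h'⟩ <;>
    first | omega | exact h.eq h'

theorem IsT.lick {n k : ℕ} {φ : MulAut (FN n)} (h : IsT n k φ) : φ ∈ Lick n := by
  rcases h with ⟨-, a, h⟩ | ⟨-, a, h⟩ | ⟨-, a, h⟩
  exacts [⟨_, Or.inl ⟨a, Or.inl h⟩⟩, ⟨_, Or.inl ⟨a, Or.inr h⟩⟩, ⟨_, Or.inr ⟨a, h⟩⟩]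

theorem isT_of {g : ℕ} {φ : MulAut (FN (2 * g))} (h : φ ∈ Lick (2 * g)) :
    ∃ k, k < 3 * g - 1 ∧ IsT (2 * g) k φ := by
  obtain ⟨i, ⟨a, h | h⟩ | ⟨a, h⟩⟩ := h
  · exact ⟨3 * i, by omega, Or.inl ⟨by omega, by omega, by rwa [show 3 * i / 3 = i by omega]⟩⟩
  · exact ⟨3 * i + 1, by omega, Or.inr (Or.inl
      ⟨by omega, by omega, by rwa [show (3 * i + 1) / 3 = i by omega]⟩)⟩
  · exact ⟨3 * i + 2, by omega, Or.inr (Or.inr
      ⟨by omega, by omega, by rwa [show (3 * i + 2) / 3 = i by omega]⟩)⟩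

theorem isT_ofA {h : ℕ} {φ : MulAut (FN (2 * (h + 1)))} (e : φ ∈ LickA (2 * (h + 1))) :
    ∃ k, k < 3 * h + 1 ∧ IsT (2 * (h + 1)) k φ := by
  obtain ⟨k, a, b⟩ := isT_of e.1
  refine ⟨k, lt_of_le_of_ne (by omega) ?_, b⟩
  rintro rfl
  rcases b with ⟨c, -⟩ | ⟨-, -, c⟩ | ⟨c, -⟩
  · omega
  · have d := e.2
    rw [show (3 * h + 1) / 3 = h by omega] at c
    rw [show 2 * (h + 1) - 2 = 2 * h by omega, c.1, mul_eq_left, inv_eq_one, io,
      dif_pos (by omega)] at d
    exact FreeGroup.of_ne_one _ d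
  · omega

theorem IsT.tr {n j k : ℕ} (ι : FN n →* FN (n + 2)) {φ : MulAut (FN n)} (ψ : MulAut (FN (n + 2)))
    (hj : j ≤ 1) (h1 : ∀ y < n, ι (io n y) = io (n + 2) (y + 2 * j)) (h2 : ∀ y, ψ (ι y) = ι (φ y))
    (h3 : ∀ x, x < 2 * j ∨ n + 2 * j ≤ x → ψ (io (n + 2) x) = io (n + 2) x) (h : IsT n k φ) :
    IsT (n + 2) (k + 3 * j) ψ := by
  unfold IsT at h ⊢
  rw [show (k + 3 * j) % 3 = k % 3 by omega, show (k + 3 * j) / 3 = k / 3 + j by omega]
  generalize k / 3 = i at h ⊢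
  have e : ∀ k, 2 * i + k < n → io (n + 2) (2 * (i + j) + k) = ι (io n (2 * i + k)) :=
    fun k hk => by rw [h1 _ hk]; congr 1; omega
  have e0 : 2 * i < n → io (n + 2) (2 * (i + j)) = ι (io n (2 * i)) := e 0
  have fx : ∀ x, (∀ y, x = y + 2 * j → φ (io n y) = io n y) → ψ (io (n + 2) x) = io (n + 2) x := by
    intro x hx
    by_cases hc : x < 2 * j ∨ n + 2 * j ≤ x
    · exact h3 x hc
    · obtain ⟨y, rfl⟩ : ∃ y, x = y + 2 * j := ⟨x - 2 * j, by omega⟩
      rw [← h1 y (by omega), h2, hx y rfl]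
  rcases h with ⟨a, hi, h⟩ | ⟨a, hi, h⟩ | ⟨a, hi, h⟩
  · refine Or.inl ⟨a, by omega, ?_, fun x hx => fx x fun y hy => h.2 y (by omega)⟩
    rw [e 1 (by omega), e0 (by omega), h2, h.1, map_mul]
  · refine Or.inr (Or.inl ⟨a, by omega, ?_, fun x hx => fx x fun y hy => h.2 y (by omega)⟩)
    rw [e 1 (by omega), e0 (by omega), h2, h.1, map_mul, map_inv]
  · have hc : cc (n + 2) (i + j) = ι (cc n i) := by
      rw [cc, cc, e 3 (by omega), e 2 (by omega), e0 (by omega)]
      simp only [map_mul, map_inv]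
    refine Or.inr (Or.inr ⟨a, by omega, ?_, ?_, ?_, fun x k1 k2 k3 =>
      fx x fun y hy => h.2.2.2 y (by omega) (by omega) (by omega)⟩)
    · rw [hc, e 3 (by omega), h2, h.1, map_mul, map_inv]
    · rw [hc, e0 (by omega), h2, h.2.1, map_mul, map_mul, map_inv]
    · rw [hc, e 1 (by omega), h2, h.2.2.1, map_mul]

theorem IsT.ex {n k : ℕ} {φ : MulAut (FN n)} (h : IsT n k φ) : IsT (n + 2) k (exA n φ) :=
  IsT.tr (j := 0) (inc n) _ (by omega) (fun _ hy => inc_io hy) (exA_inc n φ)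
    (fun _ hx => exA_new φ (by omega)) h

theorem IsT.fr {n k : ℕ} {φ : MulAut (FN n)} (h : IsT n k φ) :
    IsT (n + 2) (k + 3) (frH n φ) := by
  rw [frH_apply]
  refine IsT.tr (j := 1) ((ka n).symm.toMonoidHom.comp (inc n)) _ le_rfl (fun y hy => ?_)
    (fun y => ?_) (fun x hx => ?_) h
  · exact (ka n).symm_apply_eq.2 ((inc_io hy).trans (ka_io hy).symm)
  · exact congrArg (ka n).symm
      ((congrArg (exA n φ) ((ka n).apply_symm_apply _)).trans (exA_inc n φ y))
  · rcases hx with hx | hx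
    · refine (ka n).symm_apply_eq.2 ?_
      show exA n φ (ka n _) = _
      rw [ka_low hx, exA_new φ (by omega)]
    · rw [Lick_big hx, map_one]

theorem IsT.st {g k : ℕ} {φ : MulAut (FN (2 * g))} (h : IsT (2 * g) k φ) : φ ∈ St g :=
  (lickSt _).2.2 g rfl φ h.lick

theorem IsT.gam {h k : ℕ} {φ : MulAut (FN (2 * (h + 1)))} (e : IsT (2 * (h + 1)) k φ)
    (hk : k < 3 * h + 1) : φ ∈ Gam h := by
  refine ⟨e.st, ?_⟩
  change φ _ = _
  rcases e with ⟨a, b, c⟩ | ⟨a, b, c⟩ | ⟨a, b, c⟩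
  · exact c.2 _ (by omega)
  · exact c.2 _ (by omega)
  · exact c.2.2.2 _ (by omega) (by omega) (by omega)

theorem st_ind {g : ℕ} (J : Subgroup (St g))
    (h : ∀ k < 3 * g - 1, ∀ φ : St g, IsT (2 * g) k φ.1 → φ ∈ J) : J = ⊤ := by
  refine eq_top_iff.2 fun φ _ => ?_
  have : St g ≤ J.map (St g).subtype := (stab_eq g).trans_le ((Subgroup.closure_le _).2 fun ψ e => by
    obtain ⟨k, a, b⟩ := isT_of e
    exact ⟨⟨ψ, b.st⟩, h k a _ b, rfl⟩)
  obtain ⟨ψ, a, b⟩ := this φ.2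
  exact (Subtype.ext b : ψ = φ) ▸ a

theorem gam_ind {h : ℕ} (J : Subgroup (Gam h))
    (e : ∀ k < 3 * h + 1, ∀ φ : Gam h, IsT (2 * (h + 1)) k φ.1 → φ ∈ J) : J = ⊤ := by
  refine eq_top_iff.2 fun φ _ => ?_
  have : Gam h ≤ J.map (Gam h).subtype :=
    (stabA_eq (h + 1)).trans_le ((Subgroup.closure_le _).2 fun ψ m => by
      obtain ⟨k, a, b⟩ := isT_ofA m
      exact ⟨⟨ψ, b.gam a⟩, e k a _ b, rfl⟩)
  obtain ⟨ψ, a, b⟩ := this φ.2
  exact (Subtype.ext b : ψ = φ) ▸ a

/-- A homomorphism between subgroups. -/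
def rs {M M' : Type} [Group M] [Group M'] (f : M →* M') (A : Subgroup M) (B : Subgroup M')
    (h : A ≤ B.comap f) : A →* B := (f.comp A.subtype).codRestrict B fun x => h x.2

theorem st_le {g : ℕ} {J : Subgroup (MulAut (FN (2 * g)))}
    (h : ∀ k < 3 * g - 1, ∀ φ, IsT (2 * g) k φ → φ ∈ J) : St g ≤ J :=
  (stab_eq g).trans_le ((Subgroup.closure_le _).2 fun ψ e => by
    obtain ⟨k, a, b⟩ := isT_of e
    exact h k a ψ b)

theorem gam_le' {h : ℕ} {J : Subgroup (MulAut (FN (2 * (h + 1))))}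
    (e : ∀ k < 3 * h + 1, ∀ φ, IsT (2 * (h + 1)) k φ → φ ∈ J) : Gam h ≤ J :=
  (stabA_eq (h + 1)).trans_le ((Subgroup.closure_le _).2 fun ψ m => by
    obtain ⟨k, a, b⟩ := isT_ofA m
    exact e k a ψ b)

/-- A new handle on top. -/
def exS (g : ℕ) : St g →* St (g + 1) :=
  rs (exA (2 * g)) _ _ (st_le fun _ _ _ h => IsT.st (g := g + 1) h.ex)

/-- A new handle at the bottom. -/
def frS (g : ℕ) : St g →* St (g + 1) :=
  rs (frH (2 * g)) _ _ (st_le fun _ _ _ h => IsT.st (g := g + 1) h.fr)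

/-- The two boundary circles are joined. -/
def exG (h : ℕ) : St h →* Gam h :=
  rs (exA (2 * h)) _ _ (st_le fun _ a _ e => IsT.gam e.ex (by omega))

/-- A new handle at the outer boundary. -/
def frG (h : ℕ) : Gam h →* Gam (h + 1) :=
  rs (frH (2 * (h + 1))) _ _ (gam_le' fun _ a _ e => IsT.gam (h := h + 1) e.fr (by omega))

/-- The inclusion. -/
def inS (h : ℕ) : Gam h →* St (h + 1) := Subgroup.inclusion inf_le_left

/-- The image of a letter under a twist or its inverse. -/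
def twR (k : ℕ) (s : Bool) (x : ℕ) : RW :=
  if k % 3 = 0 then (if x = 2 * (k / 3) + 1 then [(x, true), (2 * (k / 3), s)] else [(x, true)])
  else if k % 3 = 1 then
    (if x = 2 * (k / 3) then [(x, true), (2 * (k / 3) + 1, !s)] else [(x, true)])
  else
    let c := cond s (ccR (k / 3)) (iv (ccR (k / 3)))
    if x = 2 * (k / 3) + 3 then iv c ++ [(x, true)] else
    if x = 2 * (k / 3) then iv c ++ [(x, true)] ++ c else
    if x = 2 * (k / 3) + 1 then [(x, true)] ++ c else [(x, true)]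

/-- The twist as a substitution. -/
def twS (k : ℕ) : SA :=
  ((List.range (2 * (k / 3) + if k % 3 = 2 then 4 else 2)).map fun x => rd (twR k true x),
    (List.range (2 * (k / 3) + if k % 3 = 2 then 4 else 2)).map fun x => rd (twR k false x))

/-- The entry `i` of a table. -/
noncomputable def tb (n : ℕ) (L : List SA) (i : ℕ) : MulAut (FN n) := aut n (L.getD i ([], []))

/-- The first `m` entries are the twists. -/
def stdB (n : ℕ) (L : List SA) (m : ℕ) : Bool :=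
  L.all (okS n) && (List.range m).all fun k =>
    Nat.ble (2 * (k / 3) + if k % 3 = 2 then 4 else 2) n && agR n (L.getD k ([], [])) (twR k true)

theorem stdB_ok {n m : ℕ} {L : List SA} (h : stdB n L m = true) : L.all (okS n) = true :=
  (Bool.and_eq_true_iff.1 h).1

theorem stdB_is {n m : ℕ} {L : List SA} (h : stdB n L m = true) {k : ℕ} (hk : k < m) :
    IsT n k (tb n L k) := by
  have h1 := List.all_eq_true.1 (Bool.and_eq_true_iff.1 h).2 k (List.mem_range.2 hk)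
  rw [Bool.and_eq_true_iff, Nat.ble_eq] at h1
  obtain ⟨a, b⟩ := agR_ok (Raw_ok_getD n L (stdB_ok h) k) h1.2
  have l := h1.1
  have c : gw (io n) (ccR (k / 3)) = cc n (k / 3) := by
    simp only [ccR, cc, Raw_cons, Raw_nil, cond_true, cond_false, mul_one, mul_assoc]
  unfold tb
  obtain e | e | e : k % 3 = 0 ∨ k % 3 = 1 ∨ k % 3 = 2 := by omega
  · rw [if_neg (by omega)] at l
    refine Or.inl ⟨e, l, ?_, fun x hx => b x (by rw [twR, if_pos e, if_neg hx])⟩
    rw [a _ (by omega), twR, if_pos e, if_pos rfl, Raw_cons, Raw_pos]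
    rfl
  · rw [if_neg (by omega)] at l
    refine Or.inr (Or.inl ⟨e, l, ?_, fun x hx => b x (by
      rw [twR, if_neg (by omega), if_pos e, if_neg hx])⟩)
    rw [a _ (by omega), twR, if_neg (by omega), if_pos e, if_pos rfl, Raw_cons, Bool.not_true,
      Raw_neg]
    rfl
  · rw [if_pos e] at l
    have t : ∀ x, twR k true x = if x = 2 * (k / 3) + 3 then iv (ccR (k / 3)) ++ [(x, true)] else
        if x = 2 * (k / 3) then iv (ccR (k / 3)) ++ [(x, true)] ++ ccR (k / 3) else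
        if x = 2 * (k / 3) + 1 then [(x, true)] ++ ccR (k / 3) else [(x, true)] := fun x => by
      rw [twR, if_neg (by omega), if_neg (by omega)]
      rfl
    refine Or.inr (Or.inr ⟨e, l, ?_, ?_, ?_, fun x h1 h2 h3 =>
      b x (by rw [t, if_neg h3, if_neg h1, if_neg h2])⟩)
    · rw [a _ (by omega), t, if_pos rfl, Raw_append, Raw_iv, c, Raw_pos]
    · rw [a _ (by omega), t, if_neg (by omega), if_pos rfl, Raw_append, Raw_append, Raw_iv, c,
        Raw_pos]
    · rw [a _ (by omega), t, if_neg (by omega), if_neg (by omega), if_pos rfl, Raw_append, c,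
        Raw_pos]

/-- All entries fix the word. -/
def fixB (L : List SA) (w : RW) : Bool := L.all fun p => eqF (sub p.1 w) w

theorem fixB_ok {n : ℕ} {L : List SA} (h : L.all (okS n) = true) {w : RW} (e : fixB L w = true)
    (i : ℕ) : tb n L i (ev n w) = ev n w := by
  refine (Raw_aut n _ w (Raw_ok_getD n L h i)).1.trans ?_
  by_cases hi : i < L.length
  · rw [List.getD_eq_getElem _ _ hi]
    exact Raw_eqF _ _ _ (List.all_eq_true.1 e _ (List.getElem_mem hi))
  · rw [List.getD_eq_default _ _ (not_lt.1 hi)]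
    unfold ev
    rw [Raw_sub]
    exact congrArg (fun T => gw T w) (funext fun i => Raw_pos _ i)

/-- The two words act in the same way. -/
def same (n : ℕ) (L : List SA) (u v : RW) : Bool :=
  (List.range n).all fun i => eqF (act L u [(i, true)]) (act L v [(i, true)])

theorem same_ok {n : ℕ} {L : List SA} (h : L.all (okS n) = true) {u v : RW}
    (e : same n L u v = true) : gw (tb n L) u = gw (tb n L) v :=
  Raw_ext n fun i => by
    rw [← Raw_of n i]
    exact (Raw_act n L h u _).trans ((Raw_eqF _ _ _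
      (List.all_eq_true.1 e i (List.mem_range.2 i.2))).trans (Raw_act n L h v _).symm)

/-- A table inside a subgroup. -/
structure Tab (n : ℕ) (Γ : Subgroup (MulAut (FN n))) : Type where
  L : List SA
  ok : L.all (okS n) = true
  mem : ∀ i, tb n L i ∈ Γ

/-- The entries in the subgroup. -/
noncomputable def Tab.t {n : ℕ} {Γ : Subgroup (MulAut (FN n))} (T : Tab n Γ) (i : ℕ) : Γ :=
  ⟨tb n T.L i, T.mem i⟩

theorem Tab.same {n : ℕ} {Γ : Subgroup (MulAut (FN n))} (T : Tab n Γ) {u v : RW}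
    (e : same n T.L u v = true) : gw T.t u = gw T.t v :=
  Subtype.ext ((Raw_map T.t _ Γ.subtype u).trans ((same_ok T.ok e).trans
    (Raw_map T.t _ Γ.subtype v).symm))

/-- A table in the stabiliser of the boundary. -/
def tabS (g : ℕ) (L : List SA) (h : L.all (okS (2 * g)) = true) (e : fixB L (rW g) = true) :
    Tab (2 * g) (St g) := ⟨L, h, fixB_ok h e⟩

/-- A table in the stabiliser of the boundary and the first arc. -/
def tabG (h : ℕ) (L : List SA) (o : L.all (okS (2 * (h + 1))) = true)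
    (e : fixB L (rW (h + 1)) = true) (e' : fixB L [(2 * (h + 1) - 2, true)] = true) :
    Tab (2 * (h + 1)) (Gam h) :=
  ⟨L, o, fun i => ⟨fixB_ok o e i, by
    have := fixB_ok o e' i
    rwa [ev, Raw_pos] at this⟩⟩

/-- The first `m` twists. -/
def twL (m : ℕ) : List SA := (List.range m).map twS

/-- The shift of a word. -/
def sh (d : ℕ) (w : RW) : RW := w.map fun l => (l.1 + d, l.2)

theorem gw_sh {G : Type} [Group G] (T : ℕ → G) (d : ℕ) (w : RW) :
    gw T (sh d w) = gw (fun i => T (i + d)) w := by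
  induction w with
  | nil => rw [sh, List.map_nil, Raw_nil, Raw_nil]
  | cons l w ih => rw [sh, List.map_cons, Raw_cons, Raw_cons, ← ih]; rfl

end Pool.Agent.ML
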